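import Mathlib

namespace Pool.Agent.Lib.MP_568ee7_co

variable {V : Type}

structure Rep (V : Type) where
  a : V → ℝ
  d : V → ℝ
  t : V → ℝ

def Rep.lt (R : Rep V) (v w : V) : Prop := R.d v < R.a w ∧ R.d v + R.t v < R.a w + R.t w

def Rep.touch (R : Rep V) (v w : V) : Prop := R.a w < R.d v ∨ R.a w + R.t w < R.d v + R.t v

structure Ctx (G : SimpleGraph V) (r : V → V → Prop) (U : V → Prop) : Prop where
  irr : ∀ x, ¬ r x x
  tr : ∀ {x y z}, r x y → r y z → r x z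
  cmp : ∀ v w, v ≠ w → (¬ G.Adj v w ↔ r v w ∨ r w v)
  ind : ∀ u u', U u → U u' → ¬ G.Adj u u'

structure SRep (G : SimpleGraph V) (B : Finset V) (R : Rep V) : Prop where
  self : ∀ v ∈ B, R.a v < R.d v
  adj : ∀ v ∈ B, ∀ w ∈ B, G.Adj v w → R.touch v w
  non : ∀ v ∈ B, ∀ w ∈ B, v ≠ w → ¬ G.Adj v w → R.lt v w ∨ R.lt w v

def Up (G : SimpleGraph V) (B : Finset V) (s : V → V → Prop) (u v : V) : Prop :=
  v ∈ B ∧ G.Adj u v ∧ ∃ v' ∈ B, G.Adj u v' ∧ s v v'

def Dn (G : SimpleGraph V) (B : Finset V) (s : V → V → Prop) (u w : V) : Prop :=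
  w ∈ B ∧ G.Adj u w ∧ ∃ w' ∈ B, G.Adj u w' ∧ s w' w

def Wk (G : SimpleGraph V) (U : V → Prop) (B : Finset V) (R : Rep V) : Prop :=
  ∀ u, U u → ∀ z ∈ B, ¬ G.Adj u z → ∀ v w, Up G B R.lt u v → Dn G B R.lt u w →
    R.d z < R.d v ∨ R.a w + R.t w < R.a z + R.t z ∨ R.a w + R.t w - R.d v < R.t z

def Cons (r : V → V → Prop) (B : Finset V) (R : Rep V) : Prop :=
  ∀ v ∈ B, ∀ w ∈ B, r v w → R.lt v w

variable {G : SimpleGraph V} {r : V → V → Prop} {U : V → Prop} {B : Finset V} {R : Rep V}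

theorem Ctx.asym (h : Ctx G r U) {x y : V} (h1 : r x y) (h2 : r y x) : False :=
  h.irr x (h.tr h1 h2)

theorem Ctx.ne (h : Ctx G r U) {x y : V} (h1 : r x y) : x ≠ y := by
  rintro rfl
  exact h.irr _ h1

theorem Ctx.nadj (h : Ctx G r U) {x y : V} (h1 : r x y) : ¬ G.Adj x y :=
  (h.cmp x y (h.ne h1)).2 (Or.inl h1)

theorem Ctx.nadj' (h : Ctx G r U) {x y : V} (h1 : r x y) : ¬ G.Adj y x :=
  fun h2 => h.nadj h1 h2.symm

theorem Ctx.tri (h : Ctx G r U) (x y : V) : x = y ∨ G.Adj x y ∨ r x y ∨ r y x := by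
  by_cases h1 : x = y
  · exact Or.inl h1
  by_cases h2 : G.Adj x y
  · exact Or.inr (Or.inl h2)
  exact Or.inr (Or.inr ((h.cmp x y h1).1 h2))

theorem Ctx.tot (h : Ctx G r U) {x y : V} (hx : U x) (hy : U y) : x = y ∨ r x y ∨ r y x := by
  rcases h.tri x y with h1 | h1 | h1
  · exact Or.inl h1
  · exact absurd h1 (h.ind x y hx hy)
  · exact Or.inr h1

theorem Ctx.swap (h : Ctx G r U) : Ctx G (fun x y => r y x) U :=
  ⟨h.irr, fun h1 h2 => h.tr h2 h1, fun v w hne => (h.cmp v w hne).trans or_comm, h.ind⟩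

theorem SRep.nadj (h : SRep G B R) {v w : V} (hv : v ∈ B) (hw : w ∈ B) (h1 : R.lt v w) :
    ¬ G.Adj v w := fun h2 => by
  have := h.adj v hv w hw h2
  unfold Rep.touch at this
  unfold Rep.lt at h1
  rcases this with h3 | h3 <;> linarith [h1.1, h1.2]

theorem SRep.ne (h : SRep G B R) {v w : V} (hv : v ∈ B) (h1 : R.lt v w) : v ≠ w := by
  rintro rfl
  linarith [h.self v hv, h1.1]

theorem SRep.asym (h : SRep G B R) {v w : V} (hv : v ∈ B) (hw : w ∈ B) (h1 : R.lt v w)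
    (h2 : R.lt w v) : False := by
  linarith [h.self v hv, h.self w hw, h1.1, h2.1]

theorem SRep.trans (h : SRep G B R) {v w z : V} (hw : w ∈ B) (h1 : R.lt v w)
    (h2 : R.lt w z) : R.lt v z :=
  ⟨by linarith [h.self w hw, h1.1, h2.1], by linarith [h.self w hw, h1.2, h2.2]⟩

theorem SRep.mono (h : SRep G B R) {M : Finset V} (hM : M ⊆ B) : SRep G M R :=
  ⟨fun v hv => h.self v (hM hv), fun v hv w hw => h.adj v (hM hv) w (hM hw),
    fun v hv w hw => h.non v (hM hv) w (hM hw)⟩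

theorem Wk.mono (h : Wk G U B R) {M : Finset V} (hM : M ⊆ B) : Wk G U M R := by
  rintro u hu z hz hn v w ⟨a1, a2, v', a3, a4⟩ ⟨b1, b2, w', b3, b4⟩
  exact h u hu z (hM hz) hn v w ⟨hM a1, a2, v', hM a3, a4⟩ ⟨hM b1, b2, w', hM b3, b4⟩

theorem Cons.iff (hc : Ctx G r U) (h : SRep G B R) (hk : Cons r B R) {v w : V} (hv : v ∈ B)
    (hw : w ∈ B) (h1 : R.lt v w) : r v w := by
  rcases (hc.cmp v w (h.ne hv h1)).1 (h.nadj hv hw h1) with h2 | h2
  · exact h2
  · exact (h.asym hv hw h1 (hk w hw v hv h2)).elim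

/-- reflection of the real line -/
def Rep.refl (R : Rep V) : Rep V :=
  ⟨fun v => -(R.d v + R.t v), fun v => -(R.a v + R.t v), R.t⟩

theorem refl_lt {v w : V} : R.refl.lt v w ↔ R.lt w v := by
  simp only [Rep.lt, Rep.refl]
  constructor <;> rintro ⟨h1, h2⟩ <;> constructor <;> linarith

theorem refl_touch {v w : V} : R.refl.touch v w ↔ R.touch w v := by
  simp only [Rep.touch, Rep.refl]
  constructor <;> rintro (h | h)
  · right; linarith
  · left; linarith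
  · right; linarith
  · left; linarith

theorem SRep.refl (h : SRep G B R) : SRep G B R.refl :=
  ⟨fun v hv => by have := h.self v hv; simp only [Rep.refl]; linarith,
    fun v hv w hw ha => refl_touch.2 (h.adj w hw v hv ha.symm),
    fun v hv w hw hne hn => by
      rw [refl_lt, refl_lt]; exact (h.non v hv w hw hne hn).symm⟩

theorem Wk.refl (h : Wk G U B R) : Wk G U B R.refl := by
  rintro u hu z hz hn v w ⟨a1, a2, v', a3, a4, a5⟩ ⟨b1, b2, w', b3, b4, b5⟩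
  have := h u hu z hz hn w v ⟨b1, b2, w', b3, b4, refl_lt.1 b5⟩ ⟨a1, a2, v', a3, a4, refl_lt.1 a5⟩
  simp only [Rep.refl]
  rcases this with h1 | h1 | h1
  · right; left; linarith
  · left; linarith
  · right; right; linarith

theorem exists_max [Finite V] (S : V → Prop) (f : V → ℝ) (k : ℝ) :
    ∃ X, k ≤ X ∧ (∀ z, S z → f z ≤ X) ∧ (X = k ∨ ∃ z, S z ∧ X = f z) := by
  by_cases h : ∃ z, S z
  · obtain ⟨z, hz, hm⟩ := Set.exists_max_image {z | S z} f (Set.toFinite _) h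
    rcases le_total k (f z) with h1 | h1
    · exact ⟨f z, h1, hm, Or.inr ⟨z, hz, rfl⟩⟩
    · exact ⟨k, le_rfl, fun y hy => (hm y hy).trans h1, Or.inl rfl⟩
  · exact ⟨k, le_rfl, fun y hy => (h ⟨y, hy⟩).elim, Or.inl rfl⟩

theorem exists_min [Finite V] (S : V → Prop) (f : V → ℝ) (k : ℝ) :
    ∃ X, X ≤ k ∧ (∀ z, S z → X ≤ f z) ∧ (X = k ∨ ∃ z, S z ∧ X = f z) := by
  obtain ⟨X, h1, h2, h3⟩ := exists_max S (fun z => - f z) (-k)
  refine ⟨-X, by linarith, fun z hz => by linarith [h2 z hz], ?_⟩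
  rcases h3 with h3 | ⟨z, hz, h3⟩
  · left; linarith
  · right; exact ⟨z, hz, by linarith⟩

theorem exists_gap {ι : Type} [Finite ι] (f g : ι → ℝ) :
    ∃ ε > 0, ∀ i, f i < g i → f i + ε < g i := by
  obtain ⟨X, h1, h2, h3⟩ := exists_min (fun i => f i < g i) (fun i => g i - f i) 1
  have hX : 0 < X := by
    rcases h3 with h3 | ⟨z, hz, h3⟩
    · linarith
    · linarith
  exact ⟨X / 2, by linarith, fun i hi => by linarith [h2 i hi]⟩

theorem exists_bound [Finite V] (R : Rep V) :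
    ∃ K > 0, ∀ v, |R.a v| < K ∧ |R.d v| < K ∧ |R.t v| < K := by
  obtain ⟨X, h1, h2, -⟩ := exists_max (fun _ => True) (fun v => |R.a v| + |R.d v| + |R.t v|) 0
  refine ⟨X + 1, by linarith, fun v => ?_⟩
  have := h2 v trivial
  refine ⟨?_, ?_, ?_⟩ <;> linarith [abs_nonneg (R.a v), abs_nonneg (R.d v), abs_nonneg (R.t v)]

end Pool.Agent.Lib.MP_568ee7_co
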