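import Pool.Agent.Lib.MP_568ee7_co.Basic

namespace Pool.Agent.Lib.MP_568ee7_co

variable {V : Type}

def Conn (E : V → V → Prop) (B : Finset V) : V → V → Prop :=
  Relation.ReflTransGen fun p q => p ∈ B ∧ q ∈ B ∧ (E p q ∨ E q p)

variable {E : V → V → Prop} {B : Finset V}

theorem Conn.rfl' {x : V} : Conn E B x x := Relation.ReflTransGen.refl

theorem Conn.trans {x y z : V} (h1 : Conn E B x y) (h2 : Conn E B y z) : Conn E B x z :=
  Relation.ReflTransGen.trans h1 h2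

theorem Conn.step {x p q : V} (h : Conn E B x p) (hp : p ∈ B) (hq : q ∈ B) (e : E p q ∨ E q p) :
    Conn E B x q := Relation.ReflTransGen.tail h ⟨hp, hq, e⟩

theorem Conn.inv {x y : V} (Q : V → Prop) (h : Conn E B x y) (h0 : Q x)
    (hs : ∀ p q, Conn E B x p → p ∈ B → q ∈ B → (E p q ∨ E q p) → Q p → Q q) : Q y := by
  induction h with
  | refl => exact h0
  | tail h1 h2 ih => exact hs _ _ h1 h2.1 h2.2.1 h2.2.2 ih

theorem Conn.symm {x y : V} (h : Conn E B x y) : Conn E B y x :=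
  h.inv (fun y => Conn E B y x) Conn.rfl' fun _ _ _ hp hq e ih =>
    (Conn.rfl'.step hq hp e.symm).trans ih

theorem Conn.mono {E' : V → V → Prop} {x y : V} (h : Conn E B x y)
    (hE : ∀ p ∈ B, ∀ q ∈ B, E p q → E' p q ∨ E' q p) : Conn E' B x y :=
  h.inv (fun y => Conn E' B x y) Conn.rfl' fun p q _ hp hq e ih =>
    ih.step hp hq (e.elim (hE p hp q hq) fun e' => (hE q hq p hp e').symm)

theorem gallai (E : Fin 3 → V → V → Prop) (sym : ∀ i p q, E i p q → E i q p) (B : Finset V) :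
    (∀ p ∈ B, ∀ q ∈ B, p ≠ q → ∃ i, E i p q) →
    (∀ p ∈ B, ∀ q ∈ B, ∀ i j, E i p q → E j p q → i = j) →
    (∀ a ∈ B, ∀ b ∈ B, ∀ c ∈ B, ∀ i j k, i ≠ j → i ≠ k → j ≠ k → E i a b → E j a c → E k b c →
      False) →
    (∀ p ∈ B, ∀ i, ¬ E i p p) →
    (∃ p ∈ B, ∃ q ∈ B, p ≠ q) → ∃ i, ∃ x ∈ B, ∃ y ∈ B, ¬ Conn (E i) B x y := by
  classical
  induction B using Finset.induction_on with
  | empty => rintro - - - - ⟨p, hp, -⟩; simp at hp
  | insert v B hv ih =>
  intro cov uniq rain irr hne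
  by_contra hcon
  push Not at hcon
  have sub : ∀ {p}, p ∈ B → p ∈ insert v B := fun h => Finset.mem_insert_of_mem h
  have hv' : v ∈ insert v B := Finset.mem_insert_self v B
  have hnb : ∀ i, ∃ a ∈ B, E i v a := by
    intro i
    obtain ⟨y, hy, hvy⟩ : ∃ y ∈ insert v B, y ≠ v := by
      obtain ⟨p, hp, q, hq, hpq⟩ := hne
      by_cases h : p = v
      · exact ⟨q, hq, fun h' => hpq (h.trans h'.symm)⟩
      · exact ⟨p, hp, h⟩
    refine ((hcon i v hv' y hy).inv (fun p => p = v ∨ ∃ a ∈ B, E i v a) (Or.inl rfl) ?_).resolve_left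
      hvy
    rintro p q - - hq e (rfl | h)
    · rcases Finset.mem_insert.1 hq with rfl | hq
      · exact Or.inl rfl
      · exact Or.inr ⟨q, hq, e.elim id (sym _ _ _)⟩
    · exact Or.inr h
  obtain ⟨i, x, hx, y, hy, hxy⟩ := ih (fun p hp q hq => cov p (sub hp) q (sub hq))
    (fun p hp q hq => uniq p (sub hp) q (sub hq))
    (fun a ha b hb c hc => rain a (sub ha) b (sub hb) c (sub hc)) (fun p hp => irr p (sub hp)) (by
      obtain ⟨a, ha, ea⟩ := hnb 0
      obtain ⟨b, hb, eb⟩ := hnb 1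
      refine ⟨a, ha, b, hb, ?_⟩
      rintro rfl
      exact absurd (uniq v hv' a (sub ha) 0 1 ea eb) (by decide))
  have modu : ∀ {p q z j}, Conn (E i) B p q → z ∈ B → ¬ Conn (E i) B p z → j ≠ i → E j z p →
      E j z q := by
    intro p q z j h hz hn hj e
    refine h.inv (fun q => E j z q) e fun p' q' c hp' hq' e' ih' => ?_
    have c' := c.step hp' hq' e'
    obtain ⟨k, ek⟩ := cov z (sub hz) q' (sub hq') (by rintro rfl; exact hn c')
    by_cases h1 : k = i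
    · exact (hn (c'.step hq' hz (Or.inr (h1 ▸ ek)))).elim
    by_cases h2 : k = j
    · exact h2 ▸ ek
    exact (rain z (sub hz) p' (sub hp') q' (sub hq') j k i (Ne.symm h2) hj h1 ih' ek
      (e'.elim id (sym _ _ _))).elim
  have rho : ∀ p ∈ B, ∃ s ∈ B, Conn (E i) B p s ∧ E i v s := by
    intro p hp
    refine ((hcon i p (sub hp) v hv').inv
      (fun q => (q ∈ B ∧ Conn (E i) B p q) ∨ ∃ s ∈ B, Conn (E i) B p s ∧ E i v s)
      (Or.inl ⟨hp, Conn.rfl'⟩) ?_).resolve_left fun h => hv h.1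
    rintro q q' - - hq' e (⟨h1, h2⟩ | h)
    · rcases Finset.mem_insert.1 hq' with rfl | hq'
      · exact Or.inr ⟨q, h1, h2, e.elim (sym _ _ _) id⟩
      · exact Or.inl ⟨hq', h2.step h1 hq' e⟩
    · exact Or.inr h
  have F : ∀ j, j ≠ i → ∀ a ∈ B, E j v a → ∀ p ∈ B, ¬ Conn (E i) B a p → E j a p := by
    intro j hj a ha e p hp hn
    obtain ⟨s, hs, c, es⟩ := rho p hp
    have hn' : ¬ Conn (E i) B s a := fun h => hn (c.trans h).symm
    refine modu c.symm ha hn' hj ?_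
    obtain ⟨k, ek⟩ := cov a (sub ha) s (sub hs) (by rintro rfl; exact hn' Conn.rfl')
    by_cases h1 : k = i
    · exact (hn' (Conn.rfl'.step hs ha (Or.inr (h1 ▸ ek)))).elim
    by_cases h2 : k = j
    · exact h2 ▸ ek
    exact (rain v hv' a (sub ha) s (sub hs) j i k hj (Ne.symm h2) (Ne.symm h1) e es ek).elim
  obtain ⟨j, k, hj, hk, hjk⟩ :=
    (by decide : ∀ i : Fin 3, ∃ j k : Fin 3, j ≠ i ∧ k ≠ i ∧ j ≠ k) i
  obtain ⟨a, ha, ea⟩ := hnb j
  obtain ⟨b, hb, eb⟩ := hnb k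
  by_cases hab : Conn (E i) B a b
  · obtain ⟨p, hp, hn⟩ : ∃ p ∈ B, ¬ Conn (E i) B a p := by
      by_cases h : Conn (E i) B a x
      · exact ⟨y, hy, fun h' => hxy (h.symm.trans h')⟩
      · exact ⟨x, hx, h⟩
    exact hjk (uniq p (sub hp) b (sub hb) j k (modu hab hp hn hj (sym _ _ _ (F j hj a ha ea p hp hn)))
      (sym _ _ _ (F k hk b hb eb p hp fun h => hn (hab.trans h))))
  · exact hjk (uniq a (sub ha) b (sub hb) j k (F j hj a ha ea b hb hab)
      (sym _ _ _ (F k hk b hb eb a ha fun h => hab h.symm)))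

theorem exists_cut [DecidableEq V] {G : SimpleGraph V} {r : V → V → Prop} {U : V → Prop}
    (hc : Ctx G r U) {x y : V} (hx : x ∈ B) (hy : y ∈ B) (hn : ¬ Conn G.Adj B x y) (hr : r x y) :
    ∃ L ⊆ B, x ∈ L ∧ y ∉ L ∧ ∀ v ∈ L, ∀ w ∈ B \ L, r v w := by
  classical
  refine ⟨B.filter fun z => Conn G.Adj B x z ∨ r z x, Finset.filter_subset _ _,
    Finset.mem_filter.2 ⟨hx, Or.inl Conn.rfl'⟩, fun h => ?_, fun v hv w hw => ?_⟩
  · exact (Finset.mem_filter.1 h).2.elim hn (hc.asym hr)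
  obtain ⟨hw1, hw2⟩ := Finset.mem_sdiff.1 hw
  have hw3 : ¬ (Conn G.Adj B x w ∨ r w x) := fun h => hw2 (Finset.mem_filter.2 ⟨hw1, h⟩)
  have hxw : r x w := by
    rcases hc.tri x w with h | h | h | h
    · exact (hw3 (Or.inl (h ▸ Conn.rfl'))).elim
    · exact (hw3 (Or.inl (Conn.rfl'.step hx hw1 (Or.inl h)))).elim
    · exact h
    · exact (hw3 (Or.inr h)).elim
  rcases (Finset.mem_filter.1 hv).2 with h | h
  · refine h.inv (fun c => r c w) hxw fun p q c hp hq e ih => ?_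
    have c' := c.step hp hq e
    rcases hc.tri q w with h1 | h1 | h1 | h1
    · exact (hw3 (Or.inl (h1 ▸ c'))).elim
    · exact (hw3 (Or.inl (c'.step hq hw1 (Or.inl h1)))).elim
    · exact h1
    · exact (hc.nadj (hc.tr ih h1) (e.elim id fun h2 => h2.symm)).elim
  · exact hc.tr h hxw

end Pool.Agent.Lib.MP_568ee7_co
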