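import Pool.Agent.Lib.MP_568ee7_co.Trim

namespace Pool.Agent.Lib.MP_568ee7_co

variable {V : Type} {G : SimpleGraph V} {r : V → V → Prop} {U : V → Prop} {B : Finset V}
  {R : Rep V}

structure Out (G : SimpleGraph V) (r : V → V → Prop) (U : V → Prop) (B : Finset V) (R : Rep V)
    (x y : V → ℝ) : Prop where
  s : SRep G B R
  k : Cons r B R
  below : ∀ u, U u → ∀ z ∈ B, r z u → R.d z < x u ∧ R.d z + R.t z < y u
  above : ∀ u, U u → ∀ z ∈ B, r u z → x u < R.a z ∧ y u < R.a z + R.t z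
  mono : ∀ u u', U u → U u' → r u u' → x u < x u' ∧ y u < y u'
  nb : ∀ u, U u → ∀ w ∈ B, G.Adj u w →
    (R.a w ≤ x u ∨ R.a w + R.t w ≤ y u) ∧ (x u ≤ R.d w ∨ y u ≤ R.d w + R.t w)
  up : ∀ u, U u → ∀ v, Up G B r u v → x u ≤ R.d v
  dn : ∀ u, U u → ∀ w, Dn G B r u w → R.a w + R.t w ≤ y u
  up' : ∀ u, U u → (∀ z ∈ B, ¬ r u z) → ∀ v ∈ B, G.Adj u v → x u ≤ R.d v
  dn' : ∀ u, U u → (∀ z ∈ B, ¬ r z u) → ∀ w ∈ B, G.Adj u w → R.a w + R.t w ≤ y u

theorem extend [Finite V] (hc : Ctx G r U) (hd : ∀ u, U u → u ∉ B) {x y : V → ℝ}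
    (h : Mid G r U B R x y) : ∃ R', Out G r U B R' x y := by
  choose D hD1 hD2 hD3 using fun v =>
    exists_max (fun u => U u ∧ G.Adj u v) (fun u => min (x u) (y u - R.t v)) (R.d v)
  choose A hA1 hA2 hA3 using fun w =>
    exists_min (fun u => U u ∧ G.Adj u w) (fun u => max (x u) (y u - R.t w)) (R.a w)
  have nb1 : ∀ {u v u'}, U u → G.Adj u v → U u' → r v u' → r u u' := by
    intro u v u' hu ha hu' h1
    rcases hc.tot hu hu' with h2 | h2 | h2
    · exact (hc.nadj' h1 (h2 ▸ ha)).elim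
    · exact h2
    · exact (hc.nadj' (hc.tr h1 h2) ha).elim
  have nb2 : ∀ {u v u'}, U u → G.Adj u v → U u' → r u' v → r u' u := by
    intro u v u' hu ha hu' h1
    rcases hc.tot hu hu' with h2 | h2 | h2
    · exact (hc.nadj h1 (h2 ▸ ha)).elim
    · exact (hc.nadj (hc.tr h2 h1) ha).elim
    · exact h2
  have hD : ∀ v ∈ B, D v = R.d v ∨ ∃ u, U u ∧ G.Adj u v ∧ D v ≤ x u ∧ D v + R.t v ≤ y u ∧
      ∀ s ∈ B, r v s → r u s := by
    intro v hv
    rcases hD3 v with h1 | ⟨u, ⟨hu, ha⟩, h1⟩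
    · exact Or.inl h1
    have h2 := min_le_left (x u) (y u - R.t v)
    have h3 := min_le_right (x u) (y u - R.t v)
    by_cases h4 : x u ≤ R.d v
    · exact Or.inl (le_antisymm (by linarith) (hD1 v))
    refine Or.inr ⟨u, hu, ha, by linarith, by linarith, fun s hs h5 => ?_⟩
    rcases hc.tri u s with h6 | h6 | h6 | h6
    · exact (hd u hu (h6 ▸ hs)).elim
    · exact (h4 (h.up u hu v ⟨hv, ha, s, hs, h6, h5⟩)).elim
    · exact h6
    · exact (hc.nadj' (hc.tr h5 h6) ha).elim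
  have hA : ∀ w ∈ B, A w = R.a w ∨ ∃ u, U u ∧ G.Adj u w ∧ x u ≤ A w ∧ y u ≤ A w + R.t w ∧
      ∀ s ∈ B, r s w → r s u := by
    intro w hw
    rcases hA3 w with h1 | ⟨u, ⟨hu, ha⟩, h1⟩
    · exact Or.inl h1
    have h2 := le_max_left (x u) (y u - R.t w)
    have h3 := le_max_right (x u) (y u - R.t w)
    by_cases h4 : R.a w + R.t w ≤ y u
    · by_cases h7 : A w = R.a w
      · exact Or.inl h7
      refine Or.inr ⟨u, hu, ha, by linarith, by linarith, fun s hs h5 => ?_⟩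
      exact absurd (le_antisymm (hA1 w) (by linarith)) h7
    refine Or.inr ⟨u, hu, ha, by linarith, by linarith, fun s hs h5 => ?_⟩
    rcases hc.tri u s with h6 | h6 | h6 | h6
    · exact (hd u hu (h6 ▸ hs)).elim
    · exact (h4 (h.dn u hu w ⟨hw, ha, s, hs, h6, h5⟩)).elim
    · exact (hc.nadj (hc.tr h6 h5) ha).elim
    · exact h6
  have hk : ∀ v ∈ B, ∀ w ∈ B, r v w → D v < A w ∧ D v + R.t v < A w + R.t w := by
    intro v hv w hw h1
    rcases hD v hv with h2 | ⟨u, hu, ha, h2, h3, h4⟩ <;>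
      rcases hA w hw with h5 | ⟨u', hu', ha', h5, h6, h7⟩
    · rw [h2, h5]; exact h.k v hv w hw h1
    · have := h.below u' hu' v hv (h7 v hv h1)
      constructor <;> linarith [this.1, this.2]
    · have := h.above u hu w hw (h4 w hw h1)
      constructor <;> linarith [this.1, this.2]
    · have := h.mono u u' hu hu' (nb1 hu ha hu' (h7 v hv h1))
      constructor <;> linarith [this.1, this.2]
  refine ⟨⟨A, D, R.t⟩, ⟨fun v hv => ?_, fun v hv w hw ha => ?_, fun v hv w hw hne hn => ?_⟩,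
    hk, fun u hu z hz h1 => ?_, fun u hu z hz h1 => ?_, h.mono, fun u hu w _ ha => ⟨?_, ?_⟩,
    fun u hu v hv => ?_, fun u hu w hw => ?_, fun u hu h1 v _ ha => ?_, fun u hu h1 w _ ha => ?_⟩
  · simp only
    linarith [h.s.self v hv, hA1 v, hD1 v]
  · rcases h.s.adj v hv w hw ha with h1 | h1
    · left; simp only; linarith [hA1 w, hD1 v]
    · right; simp only; linarith [hA1 w, hD1 v]
  · exact ((hc.cmp v w hne).1 hn).imp (hk v hv w hw) (hk w hw v hv)
  · simp only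
    rcases hD z hz with h2 | ⟨u', hu', ha, h2, h3, -⟩
    · rw [h2]; exact h.below u hu z hz h1
    · have := h.mono u' u hu' hu (nb1 hu' ha hu h1)
      constructor <;> linarith [this.1, this.2]
  · simp only
    rcases hA z hz with h2 | ⟨u', hu', ha, h2, h3, -⟩
    · rw [h2]; exact h.above u hu z hz h1
    · have := h.mono u u' hu hu' (nb2 hu' ha hu h1)
      constructor <;> linarith [this.1, this.2]
  · have := hA2 w u ⟨hu, ha⟩
    rcases le_max_iff.1 this with h1 | h1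
    · exact Or.inl h1
    · right; simp only; linarith
  · have := hD2 w u ⟨hu, ha⟩
    rcases min_le_iff.1 this with h1 | h1
    · exact Or.inl h1
    · right; simp only; linarith
  · simp only
    linarith [h.up u hu v hv, hD1 v]
  · simp only
    linarith [h.dn u hu w hw, hA1 w]
  · have h2 := h.far u hu (Or.inl h1) v
    have := hD2 v u ⟨hu, ha⟩
    simp only at this ⊢
    rwa [min_eq_left (by linarith)] at this
  · have h2 := h.far u hu (Or.inr h1) w
    have := hA2 w u ⟨hu, ha⟩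
    simp only at this ⊢
    rw [max_eq_right (by linarith)] at this
    linarith

theorem Good.out [Finite V] (hc : Ctx G r U) (hd : ∀ u, U u → u ∉ B) (h : Good G r U B R) :
    ∃ R' x y, Out G r U B R' x y := by
  obtain ⟨R1, x, y, h1⟩ := trim hc hd h
  obtain ⟨R2, h2⟩ := extend hc hd h1
  exact ⟨R2, x, y, h2⟩

/-- concatenation at a cut of the order -/
theorem concat [Finite V] [DecidableEq V] (hc : Ctx G r U) (hd : ∀ u, U u → u ∉ B)
    {L : Finset V} (hL : L ⊆ B) (hcut : ∀ v ∈ L, ∀ w ∈ B \ L, r v w) {R1 R2 : Rep V}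
    (h1 : Good G r U L R1) (h2 : Good G r U (B \ L) R2) : ∃ R', Good G r U B R' := by
  obtain ⟨S1, x1, y1, o1⟩ := h1.out hc fun u hu h => hd u hu (hL h)
  obtain ⟨S2, x2, y2, o2⟩ := h2.out hc fun u hu h => hd u hu (Finset.sdiff_subset h)
  obtain ⟨K1, -, b1⟩ := exists_bound S1
  obtain ⟨K2, -, b2⟩ := exists_bound S2
  simp only [abs_lt] at b1 b2
  let K := 2 * K1 + 2 * K2
  let S : Rep V := ⟨fun v => if v ∈ L then S1.a v else S2.a v + K,
    fun v => if v ∈ L then S1.d v else S2.d v + K, fun v => if v ∈ L then S1.t v else S2.t v⟩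
  have e1 : ∀ v ∈ L, S.a v = S1.a v ∧ S.d v = S1.d v ∧ S.t v = S1.t v := fun v hv => by
    simp [S, hv]
  have e2 : ∀ v, v ∉ L → S.a v = S2.a v + K ∧ S.d v = S2.d v + K ∧ S.t v = S2.t v :=
    fun v hv => by simp [S, hv]
  have m2 : ∀ v ∈ B, v ∉ L → v ∈ B \ L := fun v hv h => Finset.mem_sdiff.2 ⟨hv, h⟩
  have hk : Cons r B S := by
    intro v hv w hw h
    unfold Rep.lt
    by_cases c1 : v ∈ L <;> by_cases c2 : w ∈ L
    · rw [(e1 v c1).2.1, (e1 v c1).2.2, (e1 w c2).1, (e1 w c2).2.2]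
      exact o1.k v c1 w c2 h
    · rw [(e1 v c1).2.1, (e1 v c1).2.2, (e2 w c2).1, (e2 w c2).2.2]
      have := b1 v
      have := b2 w
      constructor <;> simp only [K] <;> linarith [this.1.1, this.2.2.1, (b1 v).2.1.2, (b1 v).2.2.2,
        (b1 v).1.1, (b1 v).1.2, this.1.2]
    · exact (hc.asym h (hcut w c2 v (m2 v hv c1))).elim
    · rw [(e2 v c1).2.1, (e2 v c1).2.2, (e2 w c2).1, (e2 w c2).2.2]
      have := o2.k v (m2 v hv c1) w (m2 w hw c2) h
      constructor <;> linarith [this.1, this.2]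
  have hs : SRep G B S := by
    refine ⟨fun v hv => ?_, fun v hv w hw ha => ?_,
      fun v hv w hw hne hn => ((hc.cmp v w hne).1 hn).imp (hk v hv w hw) (hk w hw v hv)⟩
    · by_cases c1 : v ∈ L
      · rw [(e1 v c1).1, (e1 v c1).2.1]; exact o1.s.self v c1
      · rw [(e2 v c1).1, (e2 v c1).2.1]; linarith [o2.s.self v (m2 v hv c1)]
    · unfold Rep.touch
      by_cases c1 : v ∈ L <;> by_cases c2 : w ∈ L
      · rw [(e1 v c1).2.1, (e1 v c1).2.2, (e1 w c2).1, (e1 w c2).2.2]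
        exact o1.s.adj v c1 w c2 ha
      · exact (hc.nadj (hcut v c1 w (m2 w hw c2)) ha).elim
      · exact (hc.nadj' (hcut w c2 v (m2 v hv c1)) ha).elim
      · rw [(e2 v c1).2.1, (e2 v c1).2.2, (e2 w c2).1, (e2 w c2).2.2]
        rcases o2.s.adj v (m2 v hv c1) w (m2 w hw c2) ha with h | h
        · left; linarith
        · right; linarith
  refine ⟨S, hs, hk, ?_⟩
  rintro u hu z hz hn v w ⟨a1, a2, v', a3, a4, a5⟩ ⟨c1, c2, w', c3, c4, c5⟩
  have a6 := Cons.iff hc hs hk a1 a3 a5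
  have c6 := Cons.iff hc hs hk c3 c1 c5
  rcases hc.tri u z with h | h | h | h
  · exact (hd u hu (h ▸ hz)).elim
  · exact (hn h).elim
  · right; left
    by_cases d1 : z ∈ L <;> by_cases d2 : w ∈ L
    · have d3 : w' ∈ L := by
        by_contra d3
        exact hc.asym c6 (hcut w d2 w' (m2 w' c3 d3))
      rw [(e1 z d1).1, (e1 z d1).2.2, (e1 w d2).1, (e1 w d2).2.2]
      linarith [(o1.above u hu z d1 h).2, o1.dn u hu w ⟨d2, c2, w', d3, c4, c6⟩]
    · exact (hc.nadj (hc.tr h (hcut z d1 w (m2 w c1 d2))) c2).elim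
    · linarith [(hk w c1 z hz (hcut w d2 z (m2 z hz d1))).2, hs.self w c1]
    · rw [(e2 z d1).1, (e2 z d1).2.2, (e2 w d2).1, (e2 w d2).2.2]
      have : S2.a w + S2.t w ≤ y2 u := by
        by_cases d3 : w' ∈ L
        · exact o2.dn' u hu (fun z' hz' h' => hc.nadj' (hc.tr (hcut w' d3 z' hz') h') c4) w
            (m2 w c1 d2) c2
        · exact o2.dn u hu w ⟨m2 w c1 d2, c2, w', m2 w' c3 d3, c4, c6⟩
      linarith [(o2.above u hu z (m2 z hz d1) h).2]
  · left
    by_cases d1 : z ∈ L <;> by_cases d2 : v ∈ L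
    · rw [(e1 z d1).2.1, (e1 v d2).2.1]
      have : x1 u ≤ S1.d v := by
        by_cases d3 : v' ∈ L
        · exact o1.up u hu v ⟨d2, a2, v', d3, a4, a6⟩
        · exact o1.up' u hu (fun z' hz' h' => hc.nadj (hc.tr h' (hcut z' hz' v' (m2 v' a3 d3))) a4)
            v d2 a2
      linarith [(o1.below u hu z d1 h).1]
    · linarith [(hk z hz v a1 (hcut z d1 v (m2 v a1 d2))).1, hs.self v a1]
    · exact (hc.nadj' (hc.tr (hcut v d2 z (m2 z hz d1)) h) a2).elim
    · have d3 : v' ∉ L := fun d3 => hc.asym a6 (hcut v' d3 v (m2 v a1 d2))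
      rw [(e2 z d1).2.1, (e2 v d2).2.1]
      linarith [(o2.below u hu z (m2 z hz d1) h).1,
        o2.up u hu v ⟨m2 v a1 d2, a2, v', m2 v' a3 d3, a4, a6⟩]

end Pool.Agent.Lib.MP_568ee7_co
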