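import Pool.Agent.Lib.MP_568ee7_co.Main

namespace Pool.Agent.Lib.MP_568ee7_co

theorem ov {a1 b1 t1 a2 b2 t2 : ℝ} (h1 : 0 < t1) (h2 : 0 < t2) :
    min t1 t2 ≤ max 0 (min b1 b2 - max a1 a2) ↔
      (t1 ≤ b1 - a1 ∧ t1 ≤ b1 - a2 ∧ t1 ≤ b2 - a1 ∧ t1 ≤ b2 - a2) ∨
      (t2 ≤ b1 - a1 ∧ t2 ≤ b1 - a2 ∧ t2 ≤ b2 - a1 ∧ t2 ≤ b2 - a2) := by
  have e : ∀ t, t ≤ min b1 b2 - max a1 a2 ↔
      t ≤ b1 - a1 ∧ t ≤ b1 - a2 ∧ t ≤ b2 - a1 ∧ t ≤ b2 - a2 := fun t => by
    constructor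
    · intro h
      have := min_le_left b1 b2
      have := min_le_right b1 b2
      have := le_max_left a1 a2
      have := le_max_right a1 a2
      refine ⟨?_, ?_, ?_, ?_⟩ <;> linarith
    · rintro ⟨c1, c2, c3, c4⟩
      rcases min_choice b1 b2 with h | h <;> rcases max_choice a1 a2 with h' | h' <;>
        rw [h, h'] <;> assumption
  rw [le_max_iff, or_iff_right (lt_min h1 h2).not_ge, min_le_iff, e, e]

theorem ov_bdd {a1 b1 t1 a2 b2 t2 : ℝ} (h1 : 0 < t1) (h2 : 0 < t2) (k1 : t1 ≤ b1 - a1)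
    (k2 : t2 ≤ b2 - a2) :
    ¬ min t1 t2 ≤ max 0 (min b1 b2 - max a1 a2) ↔
      (b1 - t1 < a2 ∧ b1 < a2 + t2) ∨ (b2 - t2 < a1 ∧ b2 < a1 + t1) := by
  rw [ov h1 h2]
  constructor
  · intro h
    by_contra hcon
    simp only [not_or, not_and_or, not_le, not_lt] at h hcon
    obtain ⟨p, q⟩ := h
    obtain ⟨p', q'⟩ := hcon
    rcases p with p | p | p | p <;> rcases q with q | q | q | q <;> rcases p' with p' | p' <;>
      rcases q' with q' | q' <;> linarith
  · rintro (⟨p, q⟩ | ⟨p, q⟩) (⟨c1, c2, c3, c4⟩ | ⟨c1, c2, c3, c4⟩) <;> linarith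

theorem bounded_rep {V : Type} [Fintype V] (G : SimpleGraph V) (a b t : V → ℝ)
    (ht : ∀ v, 0 < t v)
    (hG : ∀ v w, v ≠ w →
      (G.Adj v w ↔ min (t v) (t w) ≤ max 0 (min (b v) (b w) - max (a v) (a w))))
    (r : V → V → Prop) (irr : ∀ x, ¬ r x x) (tr : ∀ x y z, r x y → r y z → r x z)
    (cmp : ∀ v w, v ≠ w → (¬ G.Adj v w ↔ (r v w ∨ r w v))) :
    ∃ a b t : V → ℝ, (∀ v, a v ≤ b v) ∧ (∀ v, 0 < t v) ∧ (∀ v, t v ≤ b v - a v) ∧
      (∀ v w, r v w → b v - t v < a w ∧ b v < a w + t w) ∧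
      ∀ v w, v ≠ w →
        (G.Adj v w ↔ min (t v) (t w) ≤ max 0 (min (b v) (b w) - max (a v) (a w))) := by
  classical
  let U : V → Prop := fun v => b v - a v < t v
  let B : Finset V := Finset.univ.filter fun v => ¬ U v
  have hB : ∀ v, v ∈ B ↔ ¬ U v := fun v => by simp [B]
  have hB' : ∀ v ∈ B, t v ≤ b v - a v := fun v hv => not_lt.1 ((hB v).1 hv)
  have hc : Ctx G r U := by
    refine ⟨irr, fun h1 h2 => tr _ _ _ h1 h2, cmp, fun u u' hu hu' ha => ?_⟩
    rcases (ov (ht u) (ht u')).1 ((hG u u' ha.ne).1 ha) with h | h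
    · exact absurd hu (not_lt.2 h.1)
    · exact absurd hu' (not_lt.2 h.2.2.2)
  have hd : ∀ u, U u → u ∉ B := fun u hu h => (hB u).1 h hu
  obtain ⟨e1, he1, g1⟩ := exists_gap (fun p : V × V => b p.1 - t p.1) (fun p => a p.2)
  obtain ⟨e2, he2, g2⟩ := exists_gap (fun p : V × V => b p.1) (fun p => a p.2 + t p.2)
  obtain ⟨η, hη, η1, η2⟩ : ∃ η > 0, 2 * η ≤ e1 ∧ 2 * η ≤ e2 :=
    ⟨min e1 e2 / 2, by positivity, by linarith [min_le_left e1 e2], by linarith [min_le_right e1 e2]⟩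
  let R : Rep V := ⟨fun v => a v - η, fun v => b v - t v + η, t⟩
  have up : ∀ v w, b v - t v < a w ∧ b v < a w + t w → R.lt v w := fun v w h => by
    have c1 := g1 (v, w) h.1
    have c2 := g2 (v, w) h.2
    simp only [Rep.lt, R] at c1 c2 ⊢
    constructor <;> linarith
  have hs : SRep G B R := by
    refine ⟨fun v hv => ?_, fun v hv w hw ha => ?_, fun v hv w hw hne hn => ?_⟩
    · simp only [R]; linarith [hB' v hv]
    · have h := (ov_bdd (ht v) (ht w) (hB' v hv) (hB' w hw)).2.mt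
        (not_not.2 ((hG v w ha.ne).1 ha))
      simp only [not_or, not_and_or, not_lt] at h
      simp only [Rep.touch, R]
      rcases h.1 with h | h
      · left; linarith
      · right; linarith
    · exact ((ov_bdd (ht v) (ht w) (hB' v hv) (hB' w hw)).1
        fun h => hn ((hG v w hne).2 h)).imp (up v w) (up w v)
  have hw : Wk G U B R := by
    have nb : ∀ u, U u → ∀ v, G.Adj u v → t v ≤ b u - a v ∧ t v ≤ b v - a u := fun u hu v ha => by
      rcases (ov (ht u) (ht v)).1 ((hG u v ha.ne).1 ha) with h | h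
      · exact absurd hu (not_lt.2 h.1)
      · exact ⟨h.2.1, h.2.2.1⟩
    rintro u hu z hz hn v w ⟨-, a2, -⟩ ⟨-, c2, -⟩
    have h1 := (nb u hu v a2).2
    have h2 := (nb u hu w c2).1
    have h3 := hB' z hz
    have hne : u ≠ z := fun h => hd u hu (h ▸ hz)
    have h4 := (ov (ht u) (ht z)).2.mt fun h => hn ((hG u z hne).2 h)
    simp only [not_or, not_and_or, not_le] at h4
    simp only [R]
    rcases h4.2 with h | h | h | h
    · right; right; linarith
    · right; left; linarith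
    · left; linarith
    · linarith
  obtain ⟨R1, h1⟩ := exists_good hc B hd R hs hw
  obtain ⟨S, x, y, o⟩ := h1.out hc hd
  let T : Rep V := ⟨fun v => if U v then x v else S.a v, fun v => if U v then x v else S.d v,
    fun v => if U v then y v - x v else S.t v⟩
  have i1 : ∀ v, U v → T.a v = x v ∧ T.d v = x v ∧ T.t v = y v - x v := fun v hv => by
    simp only [T, if_pos hv, and_self]
  have i2 : ∀ v, ¬ U v → T.a v = S.a v ∧ T.d v = S.d v ∧ T.t v = S.t v := fun v hv => by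
    simp only [T, if_neg hv, and_self]
  have f1 : ∀ v, T.a v ≤ T.d v := fun v => by
    by_cases h : U v
    · rw [(i1 v h).1, (i1 v h).2.1]
    · rw [(i2 v h).1, (i2 v h).2.1]; exact (o.s.self v ((hB v).2 h)).le
  have f2 : ∀ v w, r v w → T.lt v w := fun v w h => by
    unfold Rep.lt
    by_cases c1 : U v <;> by_cases c2 : U w
    · rw [(i1 v c1).2.1, (i1 v c1).2.2, (i1 w c2).1, (i1 w c2).2.2]
      have := o.mono v w c1 c2 h
      constructor <;> linarith [this.1, this.2]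
    · rw [(i1 v c1).2.1, (i1 v c1).2.2, (i2 w c2).1, (i2 w c2).2.2]
      have := o.above v c1 w ((hB w).2 c2) h
      constructor <;> linarith [this.1, this.2]
    · rw [(i2 v c1).2.1, (i2 v c1).2.2, (i1 w c2).1, (i1 w c2).2.2]
      have := o.below w c2 v ((hB v).2 c1) h
      constructor <;> linarith [this.1, this.2]
    · rw [(i2 v c1).2.1, (i2 v c1).2.2, (i2 w c2).1, (i2 w c2).2.2]
      exact o.k v ((hB v).2 c1) w ((hB w).2 c2) h
  have f3 : ∀ v w, G.Adj v w → ¬ T.lt v w := fun v w ha h => by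
    unfold Rep.lt at h
    by_cases c1 : U v <;> by_cases c2 : U w
    · exact hc.ind v w c1 c2 ha
    · rw [(i1 v c1).2.1, (i1 v c1).2.2, (i2 w c2).1, (i2 w c2).2.2] at h
      rcases (o.nb v c1 w ((hB w).2 c2) ha).1 with h' | h' <;> linarith [h.1, h.2]
    · rw [(i2 v c1).2.1, (i2 v c1).2.2, (i1 w c2).1, (i1 w c2).2.2] at h
      rcases (o.nb w c2 v ((hB v).2 c1) ha.symm).2 with h' | h' <;> linarith [h.1, h.2]
    · rw [(i2 v c1).2.1, (i2 v c1).2.2, (i2 w c2).1, (i2 w c2).2.2] at h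
      exact o.s.nadj ((hB v).2 c1) ((hB w).2 c2) h ha
  obtain ⟨K, -, hK⟩ := exists_bound T
  have tp : ∀ v, 0 < T.t v + K := fun v => by linarith [(abs_lt.1 (hK v).2.2).1]
  have bd : ∀ v, T.t v + K ≤ T.d v + (T.t v + K) - T.a v := fun v => by linarith [f1 v]
  have cv : ∀ v w, T.lt v w ↔ (T.d v + (T.t v + K) - (T.t v + K) < T.a w ∧
      T.d v + (T.t v + K) < T.a w + (T.t w + K)) := fun v w => by
    unfold Rep.lt
    constructor <;> rintro ⟨p, q⟩ <;> constructor <;> linarith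
  refine ⟨T.a, fun v => T.d v + (T.t v + K), fun v => T.t v + K,
    fun v => by linarith [f1 v, tp v], tp, bd, fun v w h => (cv v w).1 (f2 v w h),
    fun v w hne => ?_⟩
  rw [← not_iff_not, ov_bdd (tp v) (tp w) (bd v) (bd w), ← cv, ← cv]
  exact ⟨fun h => ((cmp v w hne).1 h).imp (f2 v w) (f2 w v),
    fun h ha => h.elim (f3 v w ha) (f3 w v ha.symm)⟩

end Pool.Agent.Lib.MP_568ee7_co
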