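import Pool.Agent.Lib.MP_568ee7_co.Squeeze

namespace Pool.Agent.Lib.MP_568ee7_co

variable {V : Type} {G : SimpleGraph V} {r : V → V → Prop} {U : V → Prop} {B : Finset V}
  {R : Rep V}

theorem dis_case [Finite V] (hc : Ctx G r U) (hd : ∀ u, U u → u ∉ B)
    (ih : ∀ M ⊂ B, ∀ R, SRep G M R → Wk G U M R → ∃ R', Good G r U M R') {x y : V} (hx : x ∈ B)
    (hy : y ∈ B) (n : ℕ) : ∀ R, SRep G B R → Wk G U B R → ¬ Conn (Dis r R) B x y →
      ({p : V × V | p.1 ∈ B ∧ p.2 ∈ B ∧ Dis r R p.1 p.2}).ncard = n → ∃ R', Good G r U B R' := by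
  classical
  induction n using Nat.strong_induction_on with
  | _ n ihn =>
  intro R hs hw hn hcard
  by_cases h0 : ∃ x0 ∈ B, ∃ y0 ∈ B, Dis r R x0 y0
  swap
  · refine ⟨R, hs, fun v hv w hw' h => ?_, hw⟩
    rcases hs.non v hv w hw' (hc.ne h) (hc.nadj h) with h1 | h1
    · exact h1
    · exact (h0 ⟨w, hw', v, hv, h1, h⟩).elim
  obtain ⟨x0, hx0, y0, hy0, e⟩ := h0
  have hM : ∀ v, v ∈ B.filter (Conn (Dis r R) B x0) ↔ v ∈ B ∧ Conn (Dis r R) B x0 v :=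
    fun v => Finset.mem_filter
  have hss : B.filter (Conn (Dis r R) B x0) ⊂ B := by
    refine ⟨Finset.filter_subset _ _, fun h => hn ?_⟩
    exact ((hM x).1 (h hx)).2.symm.trans ((hM y).1 (h hy)).2
  obtain ⟨R1, h1⟩ := ih _ hss R (hs.mono hss.1) (hw.mono hss.1)
  obtain ⟨R', s', w', k'⟩ := squeeze hc hd hs hw hx0 hy0 e hM h1
  refine ihn _ ?_ R' s' w' (fun h => hn (h.mono fun p hp q hq e' => Or.inl (k' p hp q hq e').1)) rfl
  rw [← hcard]
  refine Set.ncard_lt_ncard ⟨fun p hp => ⟨hp.1, hp.2.1, (k' _ hp.1 _ hp.2.1 hp.2.2).1⟩, fun h => ?_⟩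
    (Set.toFinite _)
  have := h (show (x0, y0) ∈ _ from ⟨hx0, hy0, e⟩)
  exact (k' _ hx0 _ hy0 this.2.2).2 ((hM _).2 ⟨hx0, Conn.rfl'⟩)

def Col (G : SimpleGraph V) (r : V → V → Prop) (R : Rep V) : Fin 3 → V → V → Prop
  | 0 => G.Adj
  | 1 => fun p q => Dis r R.refl p q ∨ Dis r R.refl q p
  | 2 => fun p q => Dis r R p q ∨ Dis r R q p

theorem three_cases (hc : Ctx G r U) (hs : SRep G B R) (hne : ∃ p ∈ B, ∃ q ∈ B, p ≠ q) :
    ∃ x ∈ B, ∃ y ∈ B, ¬ Conn G.Adj B x y ∨ ¬ Conn (Dis r R.refl) B x y ∨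
      ¬ Conn (Dis r R) B x y := by
  have sym : ∀ i p q, Col G r R i p q → Col G r R i q p := by
    intro i p q
    match i with
    | 0 => exact fun h => h.symm
    | 1 => exact fun h => h.symm
    | 2 => exact fun h => h.symm
  have u01 : ∀ p q, Col G r R 0 p q → Col G r R 1 p q → False := by
    rintro p q h (h' | h')
    · exact hc.nadj' h'.2 h
    · exact hc.nadj h'.2 h
  have u02 : ∀ p q, Col G r R 0 p q → Col G r R 2 p q → False := by
    rintro p q h (h' | h')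
    · exact hc.nadj' h'.2 h
    · exact hc.nadj h'.2 h
  have u12 : ∀ p ∈ B, ∀ q ∈ B, Col G r R 1 p q → Col G r R 2 p q → False := by
    rintro p hp q hq (h | h) (h' | h')
    · exact hs.asym hp hq h'.1 (refl_lt.1 h.1)
    · exact hc.asym h.2 h'.2
    · exact hc.asym h.2 h'.2
    · exact hs.asym hq hp h'.1 (refl_lt.1 h.1)
  have core : ∀ a ∈ B, ∀ b ∈ B, ∀ c ∈ B, Col G r R 0 b c → Col G r R 1 a b → Col G r R 2 a c →
      False := by
    rintro a ha b hb c hcB h (h1 | h1) (h2 | h2)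
    · exact hs.nadj hb hcB (hs.trans ha (refl_lt.1 h1.1) h2.1) h
    · exact hc.nadj (hc.tr h1.2 h2.2) h
    · exact hc.nadj' (hc.tr h2.2 h1.2) h
    · exact hs.nadj hcB hb (hs.trans ha h2.1 (refl_lt.1 h1.1)) h.symm
  obtain ⟨i, x, hx, y, hy, h⟩ := gallai (Col G r R) sym B (fun p hp q hq hpq => by
      by_cases ha : G.Adj p q
      · exact ⟨0, ha⟩
      rcases hs.non p hp q hq hpq ha with h1 | h1 <;> rcases (hc.cmp p q hpq).1 ha with h2 | h2
      · exact ⟨1, Or.inr ⟨refl_lt.2 h1, h2⟩⟩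
      · exact ⟨2, Or.inl ⟨h1, h2⟩⟩
      · exact ⟨2, Or.inr ⟨h1, h2⟩⟩
      · exact ⟨1, Or.inl ⟨refl_lt.2 h1, h2⟩⟩)
    (fun p hp q hq i j h1 h2 => by
      match i, j with
      | 0, 0 => rfl
      | 1, 1 => rfl
      | 2, 2 => rfl
      | 0, 1 => exact (u01 p q h1 h2).elim
      | 1, 0 => exact (u01 p q h2 h1).elim
      | 0, 2 => exact (u02 p q h1 h2).elim
      | 2, 0 => exact (u02 p q h2 h1).elim
      | 1, 2 => exact (u12 p hp q hq h1 h2).elim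
      | 2, 1 => exact (u12 p hp q hq h2 h1).elim)
    (fun a ha b hb c hcB i j k hij hik hjk h1 h2 h3 => by
      rcases (by decide : ∀ i j k : Fin 3, i ≠ j → i ≠ k → j ≠ k →
        (i = 1 ∧ j = 2 ∧ k = 0) ∨ (i = 2 ∧ j = 1 ∧ k = 0) ∨ (i = 0 ∧ j = 1 ∧ k = 2) ∨
        (i = 0 ∧ j = 2 ∧ k = 1) ∨ (i = 1 ∧ j = 0 ∧ k = 2) ∨ (i = 2 ∧ j = 0 ∧ k = 1))
        i j k hij hik hjk with ⟨rfl, rfl, rfl⟩ | ⟨rfl, rfl, rfl⟩ | ⟨rfl, rfl, rfl⟩ |
          ⟨rfl, rfl, rfl⟩ | ⟨rfl, rfl, rfl⟩ | ⟨rfl, rfl, rfl⟩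
      · exact core a ha b hb c hcB h3 h1 h2
      · exact core a ha c hcB b hb (sym _ _ _ h3) h2 h1
      · exact core c hcB a ha b hb h1 (sym _ _ _ h2) (sym _ _ _ h3)
      · exact core c hcB b hb a ha (sym _ _ _ h1) (sym _ _ _ h3) (sym _ _ _ h2)
      · exact core b hb a ha c hcB h2 (sym _ _ _ h1) h3
      · exact core b hb c hcB a ha (sym _ _ _ h2) h3 (sym _ _ _ h1))
    (fun p _ i h => by
      match i with
      | 0 => exact G.irrefl h
      | 1 => exact hc.irr p (h.elim And.right And.right)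
      | 2 => exact hc.irr p (h.elim And.right And.right)) hne
  refine ⟨x, hx, y, hy, ?_⟩
  match i with
  | 0 => exact Or.inl h
  | 1 => exact Or.inr (Or.inl fun h' => h (h'.mono fun p _ q _ e => Or.inl (Or.inl e)))
  | 2 => exact Or.inr (Or.inr fun h' => h (h'.mono fun p _ q _ e => Or.inl (Or.inl e)))

theorem exists_good [Finite V] (hc : Ctx G r U) (B : Finset V) :
    (∀ u, U u → u ∉ B) → ∀ R, SRep G B R → Wk G U B R → ∃ R', Good G r U B R' := by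
  classical
  induction B using Finset.strongInduction with
  | H B ih0 =>
  intro hd R hs hw
  have ih : ∀ M ⊂ B, ∀ R, SRep G M R → Wk G U M R → ∃ R', Good G r U M R' :=
    fun M hM => ih0 M hM fun u hu h => hd u hu (hM.1 h)
  by_cases hne : ∃ p ∈ B, ∃ q ∈ B, p ≠ q
  swap
  · exact ⟨R, hs, fun v hv w hw' h => (hne ⟨v, hv, w, hw', hc.ne h⟩).elim, hw⟩
  have cut : ∀ x ∈ B, ∀ y ∈ B, ¬ Conn G.Adj B x y → r x y → ∃ R', Good G r U B R' := by
    intro x hx y hy hn hr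
    obtain ⟨L, hL, h1, h2, h3⟩ := exists_cut hc hx hy hn hr
    obtain ⟨R1, g1⟩ := ih L ⟨hL, fun h => h2 (h hy)⟩ R (hs.mono hL) (hw.mono hL)
    obtain ⟨R2, g2⟩ := ih (B \ L) ⟨Finset.sdiff_subset, fun h => (Finset.mem_sdiff.1 (h hx)).2 h1⟩ R
      (hs.mono Finset.sdiff_subset) (hw.mono Finset.sdiff_subset)
    exact concat hc hd hL h3 g1 g2
  obtain ⟨x, hx, y, hy, h | h | h⟩ := three_cases hc hs hne
  · rcases hc.tri x y with h1 | h1 | h1 | h1
    · exact (h (h1 ▸ Conn.rfl')).elim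
    · exact (h (Conn.rfl'.step hx hy (Or.inl h1))).elim
    · exact cut x hx y hy h h1
    · exact cut y hy x hx (fun h' => h h'.symm) h1
  · exact dis_case hc hd ih hx hy _ R.refl hs.refl hw.refl h rfl
  · exact dis_case hc hd ih hx hy _ R hs hw h rfl

end Pool.Agent.Lib.MP_568ee7_co
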