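import Pool.Agent.Lib.MP_568ee7_co.Extend
import Pool.Agent.Lib.MP_568ee7_co.Conn

namespace Pool.Agent.Lib.MP_568ee7_co

variable {V : Type} {G : SimpleGraph V} {r : V → V → Prop} {U : V → Prop} {B : Finset V}
  {R : Rep V}

def Dis (r : V → V → Prop) (R : Rep V) (v w : V) : Prop := R.lt v w ∧ r w v

theorem Good.scale [Finite V] (h : Good G r U B R) (p q δ : ℝ) (hδ : 0 < δ) :
    ∃ S : Rep V, Good G r U B S ∧ ∀ v, p < S.a v ∧ S.d v < p + δ ∧ q < S.a v + S.t v ∧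
      S.d v + S.t v < q + δ := by
  obtain ⟨K, hK, hb⟩ := exists_bound R
  simp only [abs_lt] at hb
  obtain ⟨l, hl, hlK⟩ : ∃ l > 0, l * (4 * K) = δ := ⟨δ / (4 * K), by positivity, by field_simp⟩
  let S : Rep V := ⟨fun v => p + l * (R.a v + 2 * K), fun v => p + l * (R.d v + 2 * K),
    fun v => q - p + l * R.t v⟩
  have m : ∀ s t : ℝ, l * s < l * t ↔ s < t := fun s t => mul_lt_mul_iff_right₀ hl
  have e1 : ∀ v w, S.d v < S.a w ↔ R.d v < R.a w := fun v w => by
    rw [← m (R.d v) (R.a w)]; simp only [S]; constructor <;> intro h <;> linarith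
  have e2 : ∀ v w, S.a v < S.d w ↔ R.a v < R.d w := fun v w => by
    rw [← m (R.a v) (R.d w)]; simp only [S]; constructor <;> intro h <;> linarith
  have e3 : ∀ v w, S.d v + S.t v < S.a w + S.t w ↔ R.d v + R.t v < R.a w + R.t w := fun v w => by
    rw [← m (R.d v + R.t v) (R.a w + R.t w)]; simp only [S]; constructor <;> intro h <;> linarith
  have e4 : ∀ v w, S.a v + S.t v < S.d w + S.t w ↔ R.a v + R.t v < R.d w + R.t w := fun v w => by
    rw [← m (R.a v + R.t v) (R.d w + R.t w)]; simp only [S]; constructor <;> intro h <;> linarith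
  have e5 : S.lt = R.lt := by
    funext v w
    simp only [Rep.lt, e1, e3]
  refine ⟨S, ⟨⟨fun v hv => (e2 v v).2 (h.s.self v hv), fun v hv w hw ha => ?_, e5 ▸ h.s.non⟩,
    fun v hv w hw h' => e5 ▸ h.k v hv w hw h', ?_⟩, fun v => ?_⟩
  · simp only [Rep.touch, e2, e4]
    exact h.s.adj v hv w hw ha
  · intro u hu z hz hn v w hv hw
    rw [e5] at hv hw
    rcases h.w u hu z hz hn v w hv hw with h1 | h1 | h1 <;> rw [← m] at h1 <;> simp only [S]
    · left; linarith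
    · right; left; linarith
    · right; right; linarith
  · obtain ⟨⟨a1, a2⟩, ⟨a3, a4⟩, a5, a6⟩ := hb v
    simp only [S]
    refine ⟨?_, ?_, ?_, ?_⟩ <;> nlinarith

theorem above_lemma (hw : Wk G U B R) {u z p q : V} (hu : U u) (hz : z ∈ B) (hn : ¬ G.Adj u z)
    (hp : p ∈ B) (hq : q ∈ B) (ap : G.Adj u p) (aq : G.Adj u q) (hl : R.lt p q)
    (sz : R.a z < R.d z) (t1 : R.touch p z) (t2 : R.touch z q) :
    R.a q + R.t q - R.d p < R.t z := by
  have h := hw u hu z hz hn p q ⟨hp, ap, q, hq, aq, hl⟩ ⟨hq, aq, p, hp, ap, hl⟩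
  unfold Rep.touch at t1 t2
  rcases h with h | h | h <;> rcases t1 with t1 | t1 <;> rcases t2 with t2 | t2 <;>
    linarith [hl.1, hl.2]

theorem c4_lemma {m y c c' : V} (h1 : R.lt m y) (h2 : R.lt c c') (t1 : R.touch c y)
    (t2 : R.touch m c') :
    (R.a y < R.d c ∧ R.a c' + R.t c' < R.d m + R.t m ∧ R.t c < R.t m ∧ R.t c < R.t y) ∨
      (R.t m < R.t c ∧ R.t y < R.t c) := by
  unfold Rep.touch at t1 t2
  obtain ⟨a1, a2⟩ := h1
  obtain ⟨a3, a4⟩ := h2
  rcases t1 with t1 | t1 <;> rcases t2 with t2 | t2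
  · linarith
  · exact Or.inl ⟨t1, t2, by linarith, by linarith⟩
  · exact Or.inr ⟨by linarith, by linarith⟩
  · linarith

theorem squeeze [Finite V] (hc : Ctx G r U) (hd : ∀ u, U u → u ∉ B) (hs : SRep G B R)
    (hw : Wk G U B R) {x0 y0 : V} (hx0 : x0 ∈ B) (hy0 : y0 ∈ B) (hxy : Dis r R x0 y0)
    {M : Finset V} (hM : ∀ v, v ∈ M ↔ v ∈ B ∧ Conn (Dis r R) B x0 v) {R1 : Rep V}
    (h1 : Good G r U M R1) :
    ∃ R', SRep G B R' ∧ Wk G U B R' ∧
      ∀ v ∈ B, ∀ w ∈ B, Dis r R' v w → Dis r R v w ∧ v ∉ M := by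
  classical
  have sub : ∀ {v}, v ∈ M → v ∈ B := fun h => ((hM _).1 h).1
  have hx0M : x0 ∈ M := (hM _).2 ⟨hx0, Conn.rfl'⟩
  have hy0M : y0 ∈ M := (hM _).2 ⟨hy0, Conn.rfl'.step hx0 hy0 (Or.inl hxy)⟩
  have stepM : ∀ {p q}, p ∈ M → q ∈ B → (Dis r R p q ∨ Dis r R q p) → q ∈ M :=
    fun hp hq e => (hM _).2 ⟨hq, ((hM _).1 hp).2.step (sub hp) hq e⟩
  have inv : ∀ Q : V → Prop, (∀ p ∈ M, ∀ q ∈ M, Dis r R p q → (Q p ↔ Q q)) →
      ∀ p ∈ M, ∀ q ∈ M, Q p → Q q := by
    intro Q hQ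
    have : ∀ p ∈ M, (Q x0 ↔ Q p) := fun p hp =>
      ((hM p).1 hp).2.inv (fun p => Q x0 ↔ Q p) Iff.rfl fun p' q' c hp' hq' e ih => by
        have a1 : p' ∈ M := (hM _).2 ⟨hp', c⟩
        have a2 : q' ∈ M := stepM a1 hq' e
        rcases e with e | e
        · exact ih.trans (hQ p' a1 q' a2 e)
        · exact ih.trans (hQ q' a2 p' a1 e).symm
    exact fun p hp q hq h => (this q hq).1 ((this p hp).2 h)
  have agr : ∀ z ∈ B, z ∉ M → ∀ p ∈ M,
      G.Adj z p ∨ (R.lt z p ∧ r z p) ∨ (R.lt p z ∧ r p z) := by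
    intro z hz hzM p hp
    by_cases ha : G.Adj z p
    · exact Or.inl ha
    have hne : z ≠ p := fun h => hzM (h ▸ hp)
    rcases hs.non z hz p (sub hp) hne ha with a1 | a1 <;>
      rcases (hc.cmp z p hne).1 ha with a2 | a2
    · exact Or.inr (Or.inl ⟨a1, a2⟩)
    · exact (hzM (stepM hp hz (Or.inr ⟨a1, a2⟩))).elim
    · exact (hzM (stepM hp hz (Or.inl ⟨a1, a2⟩))).elim
    · exact Or.inr (Or.inr ⟨a1, a2⟩)
  have modu : ∀ z ∈ B, z ∉ M → (∀ p ∈ M, G.Adj z p) ∨ (∀ p ∈ M, R.lt z p ∧ r z p) ∨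
      ∀ p ∈ M, R.lt p z ∧ r p z := by
    intro z hz hzM
    have L : ∀ p ∈ M, ∀ q ∈ M, R.lt z p ∧ r z p → R.lt z q ∧ r z q := by
      refine inv (fun p => R.lt z p ∧ r z p) fun p hp q hq e => ⟨fun h => ?_, fun h => ?_⟩
      · have a := hs.trans (sub hp) h.1 e.1
        rcases agr z hz hzM q hq with b | b | b
        · exact (hs.nadj hz (sub hq) a b).elim
        · exact b
        · exact (hs.asym hz (sub hq) a b.1).elim
      · have a := hc.tr h.2 e.2
        rcases agr z hz hzM p hp with b | b | b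
        · exact (hc.nadj a b).elim
        · exact b
        · exact (hc.asym a b.2).elim
    have L' : ∀ p ∈ M, ∀ q ∈ M, R.lt p z ∧ r p z → R.lt q z ∧ r q z := by
      refine inv (fun p => R.lt p z ∧ r p z) fun p hp q hq e => ⟨fun h => ?_, fun h => ?_⟩
      · have a := hc.tr e.2 h.2
        rcases agr z hz hzM q hq with b | b | b
        · exact (hc.nadj' a b).elim
        · exact (hc.asym a b.2).elim
        · exact b
      · have a := hs.trans (sub hq) e.1 h.1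
        rcases agr z hz hzM p hp with b | b | b
        · exact (hs.nadj (sub hp) hz a b.symm).elim
        · exact (hs.asym (sub hp) hz a b.1).elim
        · exact b
    rcases agr z hz hzM x0 hx0M with b | b | b
    · refine Or.inl fun p hp => ?_
      rcases agr z hz hzM p hp with c | c | c
      · exact c
      · exact (hc.nadj (L p hp x0 hx0M c).2 b).elim
      · exact (hc.nadj' (L' p hp x0 hx0M c).2 b).elim
    · exact Or.inr (Or.inl fun p hp => L x0 hx0M p hp b)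
    · exact Or.inr (Or.inr fun p hp => L' x0 hx0M p hp b)
  obtain ⟨m, ⟨hm, y, hy, hmy⟩, hmin⟩ :=
    Set.exists_min_image {m | m ∈ M ∧ ∃ y ∈ M, R.lt m y} R.t (Set.toFinite _)
      ⟨x0, hx0M, y0, hy0M, hxy.1⟩
  obtain ⟨e1, he1, g1⟩ := exists_gap (fun _ : V => R.d m) R.d
  obtain ⟨e2, he2, g2⟩ := exists_gap (fun _ : V => R.t m) R.t
  obtain ⟨δ, hδ, d1, d2, d3, d4⟩ : ∃ δ > 0, δ ≤ e1 ∧ δ ≤ e2 ∧ δ ≤ R.a y - R.d m ∧
      δ ≤ R.a y + R.t y - (R.d m + R.t m) :=
    ⟨min (min e1 e2) (min (R.a y - R.d m) (R.a y + R.t y - (R.d m + R.t m))),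
      lt_min (lt_min he1 he2) (lt_min (by linarith [hmy.1]) (by linarith [hmy.2])),
      (min_le_left _ _).trans (min_le_left _ _), (min_le_left _ _).trans (min_le_right _ _),
      (min_le_right _ _).trans (min_le_left _ _), (min_le_right _ _).trans (min_le_right _ _)⟩
  obtain ⟨S, hS, hb⟩ := h1.scale (R.d m) (R.d m + R.t m) δ hδ
  let T : Rep V := ⟨fun v => if v ∈ M then S.a v else R.a v, fun v => if v ∈ M then S.d v else R.d v,
    fun v => if v ∈ M then S.t v else R.t v⟩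
  have i1 : ∀ v ∈ M, T.a v = S.a v ∧ T.d v = S.d v ∧ T.t v = S.t v := fun v hv => by simp [T, hv]
  have i2 : ∀ v, v ∉ M → T.a v = R.a v ∧ T.d v = R.d v ∧ T.t v = R.t v := fun v hv => by
    simp [T, hv]
  have sm := hs.self m (sub hm)
  have sy := hs.self y (sub hy)
  have bM : ∀ v ∈ M, R.d m < T.a v ∧ T.a v < T.d v ∧ T.d v < R.d m + δ ∧
      R.d m + R.t m < T.a v + T.t v ∧ T.d v + T.t v < R.d m + R.t m + δ := fun v hv => by
    rw [(i1 v hv).1, (i1 v hv).2.1, (i1 v hv).2.2]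
    exact ⟨(hb v).1, hS.s.self v hv, (hb v).2⟩
  have ltin : ∀ v ∈ M, ∀ w ∈ M, (T.lt v w ↔ S.lt v w) := fun v hv w hw => by
    unfold Rep.lt
    rw [(i1 v hv).2.1, (i1 v hv).2.2, (i1 w hw).1, (i1 w hw).2.2]
  have ltout : ∀ v, v ∉ M → ∀ w, w ∉ M → (T.lt v w ↔ R.lt v w) := fun v hv w hw => by
    unfold Rep.lt
    rw [(i2 v hv).2.1, (i2 v hv).2.2, (i2 w hw).1, (i2 w hw).2.2]
  have ltL : ∀ z, z ∉ M → R.lt z m → ∀ v ∈ M, T.lt z v := fun z hz h v hv => by
    unfold Rep.lt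
    rw [(i2 z hz).2.1, (i2 z hz).2.2]
    obtain ⟨b1, b2, b3, b4, b5⟩ := bM v hv
    constructor <;> linarith [h.1, h.2]
  have ltR : ∀ z, z ∉ M → R.lt y z → ∀ v ∈ M, T.lt v z := fun z hz h v hv => by
    unfold Rep.lt
    rw [(i2 z hz).1, (i2 z hz).2.2]
    obtain ⟨b1, b2, b3, b4, b5⟩ := bM v hv
    constructor <;> linarith [h.1, h.2]
  have hT : SRep G B T := by
    refine ⟨fun v hv => ?_, fun v hv w hw ha => ?_, fun v hv w hw hne hn => ?_⟩
    · by_cases c1 : v ∈ M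
      · exact (bM v c1).2.1
      · rw [(i2 v c1).1, (i2 v c1).2.1]; exact hs.self v hv
    · unfold Rep.touch
      by_cases c1 : v ∈ M <;> by_cases c2 : w ∈ M
      · rw [(i1 v c1).2.1, (i1 v c1).2.2, (i1 w c2).1, (i1 w c2).2.2]
        exact hS.s.adj v c1 w c2 ha
      · rw [(i2 w c2).1, (i2 w c2).2.2]
        obtain ⟨b1, b2, b3, b4, b5⟩ := bM v c1
        rcases modu w hw c2 with b | b | b
        · rcases hs.adj m (sub hm) w hw (b m hm).symm with t | t
          · left; linarith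
          · right; linarith
        · exact (hc.nadj' (b v c1).2 ha).elim
        · exact (hc.nadj (b v c1).2 ha).elim
      · rw [(i2 v c1).2.1, (i2 v c1).2.2]
        obtain ⟨b1, b2, b3, b4, b5⟩ := bM w c2
        rcases modu v hv c1 with b | b | b
        · rcases hs.adj v hv y (sub hy) (b y hy) with t | t
          · left; linarith
          · right; linarith
        · exact (hc.nadj (b w c2).2 ha).elim
        · exact (hc.nadj' (b w c2).2 ha).elim
      · rw [(i2 v c1).2.1, (i2 v c1).2.2, (i2 w c2).1, (i2 w c2).2.2]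
        exact hs.adj v hv w hw ha
    · by_cases c1 : v ∈ M <;> by_cases c2 : w ∈ M
      · rw [ltin v c1 w c2, ltin w c2 v c1]; exact hS.s.non v c1 w c2 hne hn
      · rcases modu w hw c2 with b | b | b
        · exact (hn (b v c1).symm).elim
        · exact Or.inr (ltL w c2 (b m hm).1 v c1)
        · exact Or.inl (ltR w c2 (b y hy).1 v c1)
      · rcases modu v hv c1 with b | b | b
        · exact (hn (b w c2)).elim
        · exact Or.inl (ltL v c1 (b m hm).1 w c2)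
        · exact Or.inr (ltR v c1 (b y hy).1 w c2)
      · rw [ltout v c1 w c2, ltout w c2 v c1]; exact hs.non v hv w hw hne hn
  have crossL : ∀ z ∈ B, z ∉ M → ∀ v ∈ M, T.lt z v → ∀ p ∈ M, R.lt z p ∧ r z p := by
    intro z hz c v hv h
    rcases modu z hz c with b | b | b
    · exact (hT.nadj hz (sub hv) h (b v hv)).elim
    · exact b
    · exact (hT.asym hz (sub hv) h (ltR z c (b y hy).1 v hv)).elim
  have crossR : ∀ z ∈ B, z ∉ M → ∀ v ∈ M, T.lt v z → ∀ p ∈ M, R.lt p z ∧ r p z := by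
    intro z hz c v hv h
    rcases modu z hz c with b | b | b
    · exact (hT.nadj (sub hv) hz h (b v hv).symm).elim
    · exact (hT.asym (sub hv) hz h (ltL z c (b m hm).1 v hv)).elim
    · exact b
  refine ⟨T, hT, ?_, fun v hv w hw e => ?_⟩
  swap
  · by_cases c1 : v ∈ M <;> by_cases c2 : w ∈ M
    · exact (hS.s.asym c1 c2 ((ltin v c1 w c2).1 e.1) (hS.k w c2 v c1 e.2)).elim
    · exact (hc.asym e.2 (crossR w hw c2 v c1 e.1 v c1).2).elim
    · exact (hc.asym e.2 (crossL v hv c1 w c2 e.1 w c2).2).elim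
    · exact ⟨⟨(ltout v c1 w c2).1 e.1, e.2⟩, c1⟩
  rintro u hu z hz hn v w ⟨a1, a2, v', a3, a4, a5⟩ ⟨c1, c2, w', c3, c4, c5⟩
  by_cases hall : ∀ p ∈ M, G.Adj u p
  · have hzM : z ∉ M := fun h => hn (hall z h)
    obtain ⟨v1, hv1, lv⟩ : ∃ v1, Up G B R.lt u v1 ∧ R.d v1 ≤ T.d v := by
      by_cases d : v ∈ M
      · exact ⟨m, ⟨sub hm, hall m hm, y, sub hy, hall y hy, hmy⟩,
          by linarith [(bM v d).1, (bM v d).2.1]⟩
      · refine ⟨v, ⟨a1, a2, v', a3, a4, ?_⟩, (i2 v d).2.1.ge⟩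
        by_cases d' : v' ∈ M
        · exact (crossL v a1 d v' d' a5 v' d').1
        · exact (ltout v d v' d').1 a5
    obtain ⟨w1, hw1, lw⟩ : ∃ w1, Dn G B R.lt u w1 ∧ T.a w + T.t w ≤ R.a w1 + R.t w1 := by
      by_cases d : w ∈ M
      · exact ⟨y, ⟨sub hy, hall y hy, m, sub hm, hall m hm, hmy⟩,
          by linarith [(bM w d).2.1, (bM w d).2.2.2.2]⟩
      · refine ⟨w, ⟨c1, c2, w', c3, c4, ?_⟩, by rw [(i2 w d).1, (i2 w d).2.2]⟩
        by_cases d' : w' ∈ M
        · exact (crossR w c1 d w' d' c5 w' d').1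
        · exact (ltout w' d' w d).1 c5
    rw [(i2 z hzM).1, (i2 z hzM).2.1, (i2 z hzM).2.2]
    rcases hw u hu z hz hn v1 w1 hv1 hw1 with h | h | h
    · left; linarith
    · right; left; linarith
    · right; right; linarith
  by_cases hnone : ∀ p ∈ M, ¬ G.Adj u p
  · have f1 : v ∉ M := fun h => hnone v h a2
    have f2 : v' ∉ M := fun h => hnone v' h a4
    have f3 : w ∉ M := fun h => hnone w h c2
    have f4 : w' ∉ M := fun h => hnone w' h c4
    have hU : Up G B R.lt u v := ⟨a1, a2, v', a3, a4, (ltout v f1 v' f2).1 a5⟩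
    have hD : Dn G B R.lt u w := ⟨c1, c2, w', c3, c4, (ltout w' f4 w f3).1 c5⟩
    rw [(i2 v f1).2.1, (i2 w f3).1, (i2 w f3).2.2]
    by_cases hzM : z ∈ M
    · obtain ⟨b1, b2, b3, b4, b5⟩ := bM z hzM
      by_cases h0 : R.d m < R.d v
      · left; linarith [g1 v h0]
      · rcases hw u hu m (sub hm) (hnone m hm) v w hU hD with h | h | h
        · exact (h0 h).elim
        · right; left; linarith
        · right; left; linarith
    · rw [(i2 z hzM).1, (i2 z hzM).2.1, (i2 z hzM).2.2]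
      exact hw u hu z hz hn v w hU hD
  obtain ⟨w0, hw0, x1, hx1, aw0, nx1, e0⟩ : ∃ w0 ∈ M, ∃ x1 ∈ M, G.Adj u w0 ∧ ¬ G.Adj u x1 ∧
      (Dis r R w0 x1 ∨ Dis r R x1 w0) := by
    by_contra hcon
    push Not at hall hnone
    obtain ⟨p, hp, np⟩ := hall
    obtain ⟨q, hq, aq⟩ := hnone
    refine np (inv (G.Adj u) (fun p hp q hq e => ⟨fun h => ?_, fun h => ?_⟩) q hq p hp aq)
    · by_contra h'
      exact hcon ⟨p, hp, q, hq, h, h', Or.inl e⟩
    · by_contra h'
      exact hcon ⟨q, hq, p, hp, h, h', Or.inr e⟩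
  have sx1 := hs.self x1 (sub hx1)
  have hux : r u x1 ∨ r x1 u := (hc.cmp u x1 fun h => hd u hu (h ▸ sub hx1)).1 nx1
  have nbN : ∀ c ∈ B, c ∉ M → G.Adj u c → ∀ p ∈ M, G.Adj c p := by
    intro c hcB hcM ac
    rcases modu c hcB hcM with b | b | b
    · exact b
    · exfalso
      have f1 : r u x1 := hux.resolve_right fun h => hc.nadj' (hc.tr (b x1 hx1).2 h) ac
      have f2 : R.lt x1 w0 := (e0.resolve_left fun h => hc.nadj (hc.tr f1 h.2) aw0).1
      have f3 := (b x1 hx1).1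
      have f4 := (b w0 hw0).1
      rcases hw u hu x1 (sub hx1) nx1 c w0 ⟨hcB, ac, w0, sub hw0, aw0, f4⟩
        ⟨sub hw0, aw0, c, hcB, ac, f4⟩ with h | h | h <;> linarith [f2.1, f2.2, f3.1, f3.2]
    · exfalso
      have f1 : r x1 u := hux.resolve_left fun h => hc.nadj (hc.tr h (b x1 hx1).2) ac
      have f2 : R.lt w0 x1 := (e0.resolve_right fun h => hc.nadj' (hc.tr h.2 f1) aw0).1
      have f3 := (b x1 hx1).1
      have f4 := (b w0 hw0).1
      rcases hw u hu x1 (sub hx1) nx1 w0 c ⟨sub hw0, aw0, c, hcB, ac, f4⟩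
        ⟨hcB, ac, w0, sub hw0, aw0, f4⟩ with h | h | h <;> linarith [f2.1, f2.2, f3.1, f3.2]
  have pair : ∀ p ∈ B, ∀ q ∈ B, G.Adj u p → G.Adj u q → T.lt p q →
      (p ∈ M ∧ q ∈ M) ∨ (p ∉ M ∧ q ∉ M ∧ R.lt p q ∧ R.a y < R.d p ∧
        R.a q + R.t q < R.d m + R.t m) := by
    intro p hp q hq ap aq h
    by_cases f1 : p ∈ M <;> by_cases f2 : q ∈ M
    · exact Or.inl ⟨f1, f2⟩
    · exact (hT.nadj hp hq h (nbN q hq f2 aq p f1).symm).elim
    · exact (hT.nadj hp hq h (nbN p hp f1 ap q f2)).elim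
    have h' := (ltout p f1 q f2).1 h
    have np := nbN p hp f1 ap
    have nq := nbN q hq f2 aq
    have c4 : ∀ s ∈ M, ∀ s' ∈ M, R.lt s s' → _ := fun s hs1 s' hs2 hl =>
      c4_lemma hl h' (hs.adj p hp s' (sub hs2) (np s' hs2)) (hs.adj s (sub hs1) q hq (nq s hs1).symm)
    have f3 := above_lemma hw hu (sub hx1) nx1 hp hq ap aq h' sx1
      (hs.adj p hp x1 (sub hx1) (np x1 hx1)) (hs.adj x1 (sub hx1) q hq (nq x1 hx1).symm)
    have f4 : R.t p < R.t m := by
      refine inv (fun s => R.t p < R.t s) (fun s hs1 s' hs2 e => ?_) x1 hx1 m hm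
        (by linarith [h'.2])
      rcases c4 s hs1 s' hs2 e.1 with b | b
      · exact ⟨fun _ => b.2.2.2, fun _ => b.2.2.1⟩
      · exact ⟨fun b' => absurd b' b.1.not_gt, fun b' => absurd b' b.2.not_gt⟩
    rcases c4 m hm y hy hmy with b | b
    · exact Or.inr ⟨f1, f2, h', b.1, b.2.1⟩
    · exact absurd f4 b.1.not_gt
  have pv := pair v a1 v' a3 a2 a4 a5
  have pw := pair w' c3 w c1 c4 c2 c5
  have lv : R.d m < T.d v := by
    rcases pv with b | b
    · linarith [(bM v b.1).1, (bM v b.1).2.1]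
    · rw [(i2 v b.1).2.1]; linarith [b.2.2.2.1, hmy.1]
  have lw : T.a w + T.t w < R.d m + R.t m + δ := by
    rcases pw with b | b
    · linarith [(bM w b.2).2.1, (bM w b.2).2.2.2.2]
    · rw [(i2 w b.2.1).1, (i2 w b.2.1).2.2]; linarith [b.2.2.2.2]
  by_cases hzM : z ∈ M
  · obtain ⟨b1, b2, b3, b4, b5⟩ := bM z hzM
    rcases pv with b | b
    · rcases pw with b' | b'
      · rw [(i1 z hzM).1, (i1 z hzM).2.1, (i1 z hzM).2.2, (i1 v b.1).2.1, (i1 w b'.2).1,
          (i1 w b'.2).2.2]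
        exact hS.w u hu z hzM hn v w ⟨b.1, a2, v', b.2, a4, (ltin v b.1 v' b.2).1 a5⟩
          ⟨b'.2, c2, w', b'.1, c4, (ltin w' b'.1 w b'.2).1 c5⟩
      · right; left
        rw [(i2 w b'.2.1).1, (i2 w b'.2.1).2.2]
        linarith [b'.2.2.2.2]
    · left
      rw [(i2 v b.1).2.1]
      linarith [b.2.2.2.1]
  rw [(i2 z hzM).1, (i2 z hzM).2.1, (i2 z hzM).2.2]
  have sz := hs.self z hz
  rcases modu z hz hzM with b | b | b
  · have big : ∀ p ∈ M, ∀ q ∈ M, G.Adj u p → G.Adj u q → T.lt p q → R.t m + δ < R.t z := by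
      have aux : ∀ p ∈ M, ∀ q ∈ M, G.Adj u p → G.Adj u q → R.lt p q → R.t m + δ < R.t z := by
        intro p hp q hq ap aq h
        have f1 := above_lemma hw hu hz hn (sub hp) (sub hq) ap aq h sz
          (hs.adj p (sub hp) z hz (b p hp).symm) (hs.adj z hz q (sub hq) (b q hq))
        have f2 := hmin p ⟨hp, q, hq, h⟩
        linarith [g2 z (by linarith [h.2])]
      intro p hp q hq ap aq h
      rcases hs.non p (sub hp) q (sub hq) (hT.ne (sub hp) h) (hT.nadj (sub hp) (sub hq) h) with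
        h' | h'
      · exact aux p hp q hq ap aq h'
      · exact aux q hq p hp aq ap h'
    rcases pv with f | f
    · right; right; linarith [big v f.1 v' f.2 a2 a4 a5]
    rcases pw with f' | f'
    · right; right; linarith [big w' f'.1 w f'.2 c4 c2 c5]
    rw [(i2 v f.1).2.1, (i2 w f'.2.1).1, (i2 w f'.2.1).2.2]
    exact hw u hu z hz hn v w ⟨a1, a2, v', a3, a4, f.2.2.1⟩ ⟨c1, c2, w', c3, c4, f'.2.2.1⟩
  · left; linarith [(b m hm).1.1]
  · right; left; linarith [(b y hy).1.2]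

end Pool.Agent.Lib.MP_568ee7_co
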