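import Pool.Agent.Lib.MP_568ee7_co.Basic

namespace Pool.Agent.Lib.MP_568ee7_co

variable {V : Type} {G : SimpleGraph V} {r : V → V → Prop} {U : V → Prop} {B : Finset V}
  {R : Rep V}

structure Good (G : SimpleGraph V) (r : V → V → Prop) (U : V → Prop) (B : Finset V) (R : Rep V) :
    Prop where
  s : SRep G B R
  k : Cons r B R
  w : Wk G U B R

theorem Good.refl (h : Good G r U B R) : Good G (fun x y => r y x) U B R.refl :=
  ⟨h.s.refl, fun v hv w hw h1 => refl_lt.2 (h.k w hw v hv h1), h.w.refl⟩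

theorem up_refl {u q : V} (h : Dn G B R.lt u q) : Up G B R.refl.lt u q := by
  obtain ⟨a1, a2, v', a3, a4, a5⟩ := h
  exact ⟨a1, a2, v', a3, a4, refl_lt.2 a5⟩

theorem k1 (hc : Ctx G r U) (h : Good G r U B R) {u p z : V} (hu : U u) (hp : Up G B R.lt u p)
    (hz : z ∈ B) (hzu : r z u) : R.a z < R.d p := by
  obtain ⟨p1, p2, p', p3, p4, p5⟩ := hp
  have sz := h.s.self z hz
  have sp := h.s.self p p1
  rcases hc.tri p z with h1 | h1 | h1 | h1
  · exact (hc.nadj' hzu (h1 ▸ p2)).elim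
  · by_contra h2
    have h3 := h.s.adj p p1 z hz h1
    have h4 := h.w u hu z hz (hc.nadj' hzu) p p' ⟨p1, p2, p', p3, p4, p5⟩ ⟨p3, p4, p, p1, p2, p5⟩
    unfold Rep.touch at h3
    rcases h3 with h3 | h3 <;> rcases h4 with h4 | h4 | h4 <;> linarith [p5.1, p5.2]
  · exact (hc.nadj' (hc.tr h1 hzu) p2).elim
  · linarith [(h.k z hz p p1 h1).1]

theorem k2 (hc : Ctx G r U) (h : Good G r U B R) {u p v q : V} (hu : U u) (hp : Up G B R.lt u p)
    (hv : v ∈ B) (hvu : r v u) (hle : R.d p ≤ R.d v) (hq : Dn G B R.lt u q) :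
    R.a q + R.t q < R.d p + R.t v := by
  have h1 := k1 hc h hu hp hv hvu
  rcases h.w u hu v hv (hc.nadj' hvu) p q hp hq with h2 | h2 | h2 <;> linarith

theorem k3 (hc : Ctx G r U) (h : Good G r U B R) {u p v : V} (hu : U u) (hp : Up G B R.lt u p)
    (hv : v ∈ B) (hvu : r v u) (hle : R.d p ≤ R.d v) : R.t p < R.t v := by
  obtain ⟨p1, p2, p', p3, p4, p5⟩ := hp
  have := k2 hc h hu ⟨p1, p2, p', p3, p4, p5⟩ hv hvu hle ⟨p3, p4, p, p1, p2, p5⟩
  linarith [p5.2]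

theorem k4 (hc : Ctx G r U) (hd : ∀ u, U u → u ∉ B) (h : Good G r U B R) {u p v z : V} (hu : U u)
    (hp : Up G B R.lt u p) (hv : v ∈ B) (hvu : r v u) (hle : R.d p ≤ R.d v) (hz : z ∈ B)
    (huz : ¬ r u z) : R.a z < R.d p ∨ R.a z + R.t z < R.d p + R.t v := by
  have h3 := k3 hc h hu hp hv hvu hle
  have sp := h.s.self p hp.1
  rcases hc.tri u z with h1 | h1 | h1 | h1
  · exact (hd u hu (h1 ▸ hz)).elim
  · rcases hc.tri p z with h2 | h2 | h2 | h2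
    · exact Or.inl (h2 ▸ sp)
    · rcases h.s.adj p hp.1 z hz h2 with h4 | h4
      · exact Or.inl h4
      · right; linarith
    · exact Or.inr (k2 hc h hu hp hv hvu hle ⟨hz, h1, p, hp.1, hp.2.1, h.k p hp.1 z hz h2⟩)
    · left; linarith [(h.k z hz p hp.1 h2).1, h.s.self z hz]
  · exact (huz h1).elim
  · exact Or.inl (k1 hc h hu hp hz h1)

theorem k3' (hc : Ctx G r U) (h : Good G r U B R) {u q w : V} (hu : U u) (hq : Dn G B R.lt u q)
    (hw : w ∈ B) (huw : r u w) (hle : R.a w + R.t w ≤ R.a q + R.t q) : R.t q < R.t w :=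
  k3 hc.swap h.refl hu (up_refl hq) hw huw (by simp only [Rep.refl]; linarith)

theorem k4' (hc : Ctx G r U) (hd : ∀ u, U u → u ∉ B) (h : Good G r U B R) {u q w z : V} (hu : U u)
    (hq : Dn G B R.lt u q) (hw : w ∈ B) (huw : r u w) (hle : R.a w + R.t w ≤ R.a q + R.t q)
    (hz : z ∈ B) (hzu : ¬ r z u) :
    R.a q + R.t q < R.d z + R.t z ∨ R.a q + R.t q < R.d z + R.t w := by
  have := k4 hc.swap hd h.refl hu (up_refl hq) hw huw (by simp only [Rep.refl]; linarith) hz hzu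
  simp only [Rep.refl] at this
  rcases this with h1 | h1
  · left; linarith
  · right; linarith

theorem claimK (hc : Ctx G r U) (hd : ∀ u, U u → u ∉ B) (h : Good G r U B R) {v w : V}
    (hv : v ∈ B) (hw : w ∈ B) (hvw : v = w ∨ G.Adj v w) {D E : ℝ} (hD : D ≤ R.d v)
    (hD' : D = R.d v ∨ ∃ p, (∃ u, U u ∧ r v u ∧ Up G B R.lt u p) ∧ D = R.d p)
    (hE : R.a w + R.t w ≤ E)
    (hE' : E = R.a w + R.t w ∨ ∃ q, (∃ u, U u ∧ r u w ∧ Dn G B R.lt u q) ∧ E = R.a q + R.t q) :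
    E - R.t w < D ∨ E < D + R.t v := by
  have hn : ¬ r v w := fun h1 => by
    rcases hvw with h2 | h2
    · exact hc.ne h1 h2
    · exact hc.nadj h1 h2
  rcases hD' with rfl | ⟨p, ⟨u, hu, hvu, hp⟩, rfl⟩ <;>
    rcases hE' with rfl | ⟨q, ⟨u', hu', huw, hq⟩, rfl⟩
  · rcases hvw with rfl | h2
    · left; linarith [h.s.self v hv]
    · rcases h.s.adj v hv w hw h2 with h3 | h3
      · left; linarith
      · right; linarith
  · rcases k4' hc hd h hu' hq hw huw hE hv (fun h1 => hn (hc.tr h1 huw)) with h3 | h3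
    · right; linarith
    · left; linarith
  · rcases k4 hc hd h hu hp hv hvu hD hw (fun h1 => hn (hc.tr hvu h1)) with h3 | h3
    · left; linarith
    · right; linarith
  · have h4 := k3' hc h hu' hq hw huw hE
    have h5 : ¬ r u q := fun h1 => by
      rcases hc.tot hu hu' with h2 | h2 | h2
      · exact hn (hc.tr hvu (h2 ▸ huw))
      · exact hn (hc.tr hvu (hc.tr h2 huw))
      · exact hc.nadj (hc.tr h2 h1) hq.2.1
    rcases k4 hc hd h hu hp hv hvu hD hq.1 h5 with h3 | h3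
    · left; linarith
    · right; linarith

structure Mid (G : SimpleGraph V) (r : V → V → Prop) (U : V → Prop) (B : Finset V) (R : Rep V)
    (x y : V → ℝ) : Prop where
  s : SRep G B R
  k : Cons r B R
  below : ∀ u, U u → ∀ z ∈ B, r z u → R.d z < x u ∧ R.d z + R.t z < y u
  above : ∀ u, U u → ∀ z ∈ B, r u z → x u < R.a z ∧ y u < R.a z + R.t z
  mono : ∀ u u', U u → U u' → r u u' → x u < x u' ∧ y u < y u'
  up : ∀ u, U u → ∀ v, Up G B r u v → x u ≤ R.d v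
  dn : ∀ u, U u → ∀ w, Dn G B r u w → R.a w + R.t w ≤ y u
  far : ∀ u, U u → ((∀ z ∈ B, ¬ r u z) ∨ ∀ z ∈ B, ¬ r z u) → ∀ w, x u + R.t w ≤ y u

theorem ncard_lt [Finite V] {S T : Set V} (h : S ⊆ T) {x : V} (hx : x ∈ T) (hx' : x ∉ S) :
    (S.ncard : ℝ) + 1 ≤ T.ncard := by
  have : S.ncard < T.ncard :=
    Set.ncard_lt_ncard ⟨h, fun h' => hx' (h' hx)⟩ (Set.toFinite _)
  exact_mod_cast this

theorem ncard_le' [Finite V] {S T : Set V} (h : S ⊆ T) : (S.ncard : ℝ) ≤ T.ncard := by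
  exact_mod_cast Set.ncard_le_ncard h (Set.toFinite _)

theorem trim [Finite V] (hc : Ctx G r U) (hd : ∀ u, U u → u ∉ B) (h : Good G r U B R) :
    ∃ R' x y, Mid G r U B R' x y := by
  obtain ⟨K, hK, hb⟩ := exists_bound R
  simp only [abs_lt] at hb
  choose D hD1 hD2 hD3 using fun v =>
    exists_min (fun p => ∃ u, U u ∧ r v u ∧ Up G B R.lt u p) R.d (R.d v)
  choose E hE1 hE2 hE3 using fun w =>
    exists_max (fun q => ∃ u, U u ∧ r u w ∧ Dn G B R.lt u q) (fun q => R.a q + R.t q)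
      (R.a w + R.t w)
  choose X hX1 hX2 hX3 using fun u => exists_max (fun z => z ∈ B ∧ r z u) D (-(3 * K))
  choose Y hY1 hY2 hY3 using fun u => exists_min (fun z => z ∈ B ∧ r u z) E (3 * K)
  obtain ⟨e1, he1, g1⟩ := exists_gap (fun p : V × V => E p.2 - R.t p.2) (fun p => D p.1)
  obtain ⟨e2, he2, g2⟩ := exists_gap (fun p : V × V => E p.2) (fun p => D p.1 + R.t p.1)
  let ρ : V → ℝ := fun v => ({u | U u ∧ r v u} : Set V).ncard
  let σ : V → ℝ := fun v => ({u | U u ∧ r u v} : Set V).ncard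
  let n : ℝ := (Set.univ : Set V).ncard
  have hn : 0 ≤ n := Nat.cast_nonneg _
  have hρ : ∀ v, 0 ≤ ρ v ∧ ρ v ≤ n := fun v => ⟨Nat.cast_nonneg _, ncard_le' (Set.subset_univ _)⟩
  have hσ : ∀ v, 0 ≤ σ v ∧ σ v ≤ n := fun v => ⟨Nat.cast_nonneg _, ncard_le' (Set.subset_univ _)⟩
  obtain ⟨ε, hε, hε1, hε2⟩ : ∃ ε > 0, 2 * n * ε ≤ e1 ∧ 2 * n * ε ≤ e2 := by
    refine ⟨min e1 e2 / (2 * n + 1), by positivity, ?_, ?_⟩
    · rw [mul_div_assoc', div_le_iff₀ (by positivity)]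
      nlinarith [min_le_left e1 e2, lt_min he1 he2]
    · rw [mul_div_assoc', div_le_iff₀ (by positivity)]
      nlinarith [min_le_right e1 e2, lt_min he1 he2]
  have hρε : ∀ v, 0 ≤ ε * ρ v ∧ ε * ρ v ≤ n * ε := fun v =>
    ⟨mul_nonneg hε.le (hρ v).1, by nlinarith [(hρ v).2]⟩
  have hσε : ∀ v, 0 ≤ ε * σ v ∧ ε * σ v ≤ n * ε := fun v =>
    ⟨mul_nonneg hε.le (hσ v).1, by nlinarith [(hσ v).2]⟩
  have hDK : ∀ v, -K < D v := fun v => by
    rcases hD3 v with h1 | ⟨p, -, h1⟩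
    · linarith [(hb v).2.1.1]
    · linarith [(hb p).2.1.1]
  have hEK : ∀ v, E v < 2 * K := fun v => by
    rcases hE3 v with h1 | ⟨p, -, h1⟩
    · linarith [(hb v).1.2, (hb v).2.2.2]
    · linarith [(hb p).1.2, (hb p).2.2.2]
  have key : ∀ v ∈ B, ∀ w ∈ B, (v = w ∨ G.Adj v w) →
      E w - R.t w + ε * σ w < D v - ε * ρ v ∨
        E w - R.t w + ε * σ w + R.t w < D v - ε * ρ v + R.t v := by
    intro v hv w hw hvw
    rcases claimK hc hd h hv hw hvw (hD1 v) (hD3 v) (hE1 w) (hE3 w) with h1 | h1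
    · left; linarith [g1 (v, w) h1, (hρε v).2, (hσε w).2]
    · right; linarith [g2 (v, w) h1, (hρε v).2, (hσε w).2]
  have shr : ∀ v w, R.lt v w → D v - ε * ρ v < E w - R.t w + ε * σ w ∧
      D v - ε * ρ v + R.t v < E w - R.t w + ε * σ w + R.t w := fun v w h1 =>
    ⟨by linarith [h1.1, hD1 v, hE1 w, (hρε v).1, (hσε w).1],
      by linarith [h1.2, hD1 v, hE1 w, (hρε v).1, (hσε w).1]⟩
  have upc : ∀ {u v}, Up G B r u v → Up G B R.lt u v := by
    rintro u v ⟨a1, a2, v', a3, a4, a5⟩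
    exact ⟨a1, a2, v', a3, a4, h.k v a1 v' a3 a5⟩
  have dnc : ∀ {u v}, Dn G B r u v → Dn G B R.lt u v := by
    rintro u v ⟨a1, a2, v', a3, a4, a5⟩
    exact ⟨a1, a2, v', a3, a4, h.k v' a3 v a1 a5⟩
  have nb1 : ∀ {u v u'}, U u → G.Adj u v → U u' → r v u' → r u u' := by
    intro u v u' hu ha hu' h1
    rcases hc.tot hu hu' with h2 | h2 | h2
    · exact (hc.nadj' h1 (h2 ▸ ha)).elim
    · exact h2
    · exact (hc.nadj' (hc.tr h1 h2) ha).elim
  have nb2 : ∀ {u v u'}, U u → G.Adj u v → U u' → r u' v → r u' u := by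
    intro u v u' hu ha hu' h1
    rcases hc.tot hu hu' with h2 | h2 | h2
    · exact (hc.nadj h1 (h2 ▸ ha)).elim
    · exact (hc.nadj (hc.tr h2 h1) ha).elim
    · exact h2
  refine ⟨⟨fun w => E w - R.t w + ε * σ w, fun v => D v - ε * ρ v, R.t⟩,
    fun u => X u - ε * ρ u, fun u => Y u + ε * σ u,
    ⟨fun v hv => ?_, fun v hv w hw ha => key v hv w hw (Or.inr ha), fun v hv w hw hne hn => ?_⟩,
    fun v hv w hw h1 => shr v w (h.k v hv w hw h1), fun u hu z hz h1 => ⟨?_, ?_⟩,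
    fun u hu z hz h1 => ⟨?_, ?_⟩, fun u u' hu hu' h1 => ⟨?_, ?_⟩, fun u hu v hv => ?_,
    fun u hu w hw => ?_, fun u hu h1 w => ?_⟩
  · rcases key v hv v hv (Or.inl rfl) with h1 | h1
    · exact h1
    · simp only; linarith
  · exact (h.s.non v hv w hw hne hn).imp (shr v w) (shr w v)
  · have h2 : ρ u + 1 ≤ ρ z :=
      ncard_lt (x := u) (fun u' hu' => ⟨hu'.1, hc.tr h1 hu'.2⟩) ⟨hu, h1⟩ fun h3 => hc.irr _ h3.2
    have h3 := hX2 u z ⟨hz, h1⟩
    simp only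
    nlinarith
  · have h2 : D z + R.t z < Y u := by
      rcases hY3 u with h3 | ⟨z', ⟨hz', h3⟩, h4⟩
      · linarith [hD1 z, (hb z).2.1.2, (hb z).2.2.2]
      · linarith [hD1 z, hE1 z', (h.k z hz z' hz' (hc.tr h1 h3)).2]
    simp only
    linarith [(hρε z).1, (hσε u).1]
  · have h2 : X u < E z - R.t z := by
      rcases hX3 u with h3 | ⟨z', ⟨hz', h3⟩, h4⟩
      · linarith [hE1 z, (hb z).1.1]
      · linarith [hD1 z', hE1 z, (h.k z' hz' z hz (hc.tr h3 h1)).1]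
    simp only
    linarith [(hρε u).1, (hσε z).1]
  · have h2 : σ u + 1 ≤ σ z :=
      ncard_lt (x := u) (fun u' hu' => ⟨hu'.1, hc.tr hu'.2 h1⟩) ⟨hu, h1⟩ fun h3 => hc.irr _ h3.2
    have h3 := hY2 u z ⟨hz, h1⟩
    simp only
    nlinarith
  · have h2 : ρ u' + 1 ≤ ρ u :=
      ncard_lt (x := u') (fun u'' hu'' => ⟨hu''.1, hc.tr h1 hu''.2⟩) ⟨hu', h1⟩
        fun h3 => hc.irr _ h3.2
    have h3 : X u ≤ X u' := by
      rcases hX3 u with h3 | ⟨z', ⟨hz', h3⟩, h4⟩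
      · linarith [hX1 u']
      · linarith [hX2 u' z' ⟨hz', hc.tr h3 h1⟩]
    nlinarith
  · have h2 : σ u + 1 ≤ σ u' :=
      ncard_lt (x := u) (fun u'' hu'' => ⟨hu''.1, hc.tr hu''.2 h1⟩) ⟨hu, h1⟩
        fun h3 => hc.irr _ h3.2
    have h3 : Y u ≤ Y u' := by
      rcases hY3 u' with h3 | ⟨z', ⟨hz', h3⟩, h4⟩
      · linarith [hY1 u]
      · linarith [hY2 u z' ⟨hz', hc.tr h1 h3⟩]
    nlinarith
  · have h2 : ρ v ≤ ρ u := ncard_le' fun u' hu' => ⟨hu'.1, nb1 hu hv.2.1 hu'.1 hu'.2⟩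
    have h3 : X u ≤ D v := by
      rcases hX3 u with h3 | ⟨z, ⟨hz, h3⟩, h4⟩
      · linarith [hDK v]
      · rcases hD3 v with h5 | ⟨p, ⟨u', hu', h5, h6⟩, h7⟩
        · linarith [hD2 z v ⟨u, hu, h3, upc hv⟩]
        · linarith [hD2 z p ⟨u', hu', hc.tr h3 (nb1 hu hv.2.1 hu' h5), h6⟩]
    simp only
    nlinarith
  · have h2 : σ w ≤ σ u := ncard_le' fun u' hu' => ⟨hu'.1, nb2 hu hw.2.1 hu'.1 hu'.2⟩
    have h3 : E w ≤ Y u := by
      rcases hY3 u with h3 | ⟨z, ⟨hz, h3⟩, h4⟩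
      · linarith [hEK w]
      · rcases hE3 w with h5 | ⟨p, ⟨u', hu', h5, h6⟩, h7⟩
        · linarith [hE2 z w ⟨u, hu, h3, dnc hw⟩]
        · linarith [hE2 z p ⟨u', hu', hc.tr (nb2 hu hw.2.1 hu' h5) h3, h6⟩]
    simp only
    nlinarith
  · have h2 : X u + R.t w ≤ Y u := by
      rcases hX3 u with h3 | ⟨z, ⟨hz, h3⟩, h4⟩ <;> rcases hY3 u with h5 | ⟨z', ⟨hz', h5⟩, h6⟩
      · linarith [(hb w).2.2.2]
      · linarith [(hb w).2.2.2, hE1 z', (hb z').1.1, (hb z').2.2.1]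
      · linarith [(hb w).2.2.2, hD1 z, (hb z).2.1.2]
      · rcases h1 with h1 | h1
        · exact (h1 z' hz' h5).elim
        · exact (h1 z hz h3).elim
    simp only
    linarith [(hρε u).1, (hσε u).1]

end Pool.Agent.Lib.MP_568ee7_co
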